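import Mathlib

/-!
The coordinate ring `A[x][y]/(y^2 - f)`, `f` of odd degree: degrees, norms, functoriality.
-/

set_option linter.style.haveILetI false
set_option linter.unusedVariables false

open Polynomial

namespace H58Q

/-- The affine coordinate ring of `y^2 = f(x)` over `A`. -/
abbrev Q (A : Type*) [CommRing A] (f : A[X]) : Type _ := QuadraticAlgebra A[X] f 0

/-- Functoriality in the base ring. -/
noncomputable def Q.map {A B : Type*} [CommRing A] [CommRing B] (φ : A →+* B) (f : A[X]) :
    Q A f →+* Q B (f.map φ) where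
  toFun u := ⟨u.re.map φ, u.im.map φ⟩
  map_one' := by
    ext1
    · change Polynomial.map φ 1 = 1
      exact Polynomial.map_one φ
    · change Polynomial.map φ 0 = 0
      exact Polynomial.map_zero φ
  map_zero' := by ext <;> simp
  map_add' a b := by ext <;> simp
  map_mul' a b := by
    ext1
    · simp only [QuadraticAlgebra.re_mul, Polynomial.map_add, Polynomial.map_mul]
    · simp only [QuadraticAlgebra.im_mul, Polynomial.map_add, Polynomial.map_mul,
        Polynomial.map_zero]

section map

variable {A B : Type*} [CommRing A] [CommRing B] (φ : A →+* B) (f : A[X])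

@[simp] theorem Q.map_re (u : Q A f) : (Q.map φ f u).re = u.re.map φ := rfl

@[simp] theorem Q.map_im (u : Q A f) : (Q.map φ f u).im = u.im.map φ := rfl

theorem Q.map_injective (h : Function.Injective φ) : Function.Injective (Q.map φ f) := by
  intro a b hab
  have h1 := congrArg QuadraticAlgebra.re hab
  have h2 := congrArg QuadraticAlgebra.im hab
  rw [Q.map_re, Q.map_re] at h1
  rw [Q.map_im, Q.map_im] at h2
  exact QuadraticAlgebra.ext (Polynomial.map_injective φ h h1) (Polynomial.map_injective φ h h2)

theorem Q.map_surjective (h : Function.Surjective φ) : Function.Surjective (Q.map φ f) := by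
  intro a
  obtain ⟨p, hp⟩ := Polynomial.map_surjective φ h a.re
  obtain ⟨q, hq⟩ := Polynomial.map_surjective φ h a.im
  exact ⟨⟨p, q⟩, QuadraticAlgebra.ext hp hq⟩

theorem Q.norm_map (u : Q A f) : (Q.map φ f u).norm = u.norm.map φ := by
  rw [QuadraticAlgebra.norm_def, QuadraticAlgebra.norm_def]
  simp

end map

section domain

variable {A : Type*} [CommRing A]

theorem norm_eq {f : A[X]} (u : Q A f) : u.norm = u.re ^ 2 - f * u.im ^ 2 := by
  rw [QuadraticAlgebra.norm_def]; ring

variable [IsDomain A]

/-- Degrees never cancel in the norm. -/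
theorem natDegree_norm_le_iff {f : A[X]} {g : ℕ} (hd : f.natDegree = 2 * g + 1)
    (u : Q A f) (m : ℕ) : u.norm.natDegree ≤ m ↔
      (2 * u.re.natDegree ≤ m ∧ (u.im = 0 ∨ 2 * u.im.natDegree + (2 * g + 1) ≤ m)) := by
  have hf : f ≠ 0 := by rintro rfl; simp at hd
  rw [norm_eq]
  by_cases hb : u.im = 0
  · simp [hb, natDegree_pow]
  · have h2 : (f * u.im ^ 2).natDegree = 2 * u.im.natDegree + (2 * g + 1) := by
      rw [natDegree_mul hf (pow_ne_zero _ hb), natDegree_pow, hd]; ring
    have h1 : (u.re ^ 2).natDegree = 2 * u.re.natDegree := by rw [natDegree_pow]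
    rcases lt_or_ge (u.re ^ 2).natDegree (f * u.im ^ 2).natDegree with h | h
    · rw [natDegree_sub_eq_right_of_natDegree_lt h, h2]
      rw [h1, h2] at h
      simp only [hb, false_or]
      omega
    · have h' : (f * u.im ^ 2).natDegree < (u.re ^ 2).natDegree := by
        rw [h1, h2] at h ⊢; omega
      rw [natDegree_sub_eq_left_of_natDegree_lt h', h1]
      rw [h1, h2] at h'
      simp only [hb, false_or]
      omega

theorem norm_ne_zero {f : A[X]} {g : ℕ} (hd : f.natDegree = 2 * g + 1)
    {u : Q A f} (hu : u ≠ 0) : u.norm ≠ 0 := by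
  have hf : f ≠ 0 := by rintro rfl; simp at hd
  intro h
  have h0 := h
  rw [norm_eq, sub_eq_zero] at h
  have hb : u.im = 0 := by
    by_contra hb
    have h2 : (f * u.im ^ 2).natDegree = 2 * u.im.natDegree + (2 * g + 1) := by
      rw [natDegree_mul hf (pow_ne_zero _ hb), natDegree_pow, hd]; ring
    have h1 : (u.re ^ 2).natDegree = 2 * u.re.natDegree := by rw [natDegree_pow]
    rw [h, h2] at h1
    omega
  rw [hb] at h
  have ha : u.re = 0 := by simpa using h
  exact hu (QuadraticAlgebra.ext ha hb)

theorem isDomain {f : A[X]} {g : ℕ} (hd : f.natDegree = 2 * g + 1) :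
    IsDomain (Q A f) := by
  have : NoZeroDivisors (Q A f) := by
    constructor
    intro a b hab
    by_contra hne
    push Not at hne
    have h := mul_ne_zero (norm_ne_zero hd hne.1) (norm_ne_zero hd hne.2)
    rw [← map_mul, hab, QuadraticAlgebra.norm_zero] at h
    exact h rfl
  exact NoZeroDivisors.to_isDomain _

instance instIsDomainQ (f : A[X]) [hf : Fact (Odd f.natDegree)] : IsDomain (Q A f) := by
  obtain ⟨g, hg⟩ := hf.out
  exact isDomain hg

theorem natDegree_norm_mul {f : A[X]} {g : ℕ} (hd : f.natDegree = 2 * g + 1)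
    {u v : Q A f} (hu : u ≠ 0) (hv : v ≠ 0) :
    (u * v).norm.natDegree = u.norm.natDegree + v.norm.natDegree := by
  rw [map_mul, natDegree_mul (norm_ne_zero hd hu) (norm_ne_zero hd hv)]

theorem natDegree_norm_pow {f : A[X]} (u : Q A f) (k : ℕ) :
    (u ^ k).norm.natDegree = k * u.norm.natDegree := by
  rw [map_pow, natDegree_pow]

/-- The elements of pole order at most `m`. -/
def Fm {f : A[X]} {g : ℕ} (hd : f.natDegree = 2 * g + 1) (m : ℕ) :
    Submodule A (Q A f) where
  carrier := {u | u.norm.natDegree ≤ m}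
  zero_mem' := by simp
  add_mem' := by
    intro a b ha hb
    simp only [Set.mem_ofPred_eq, natDegree_norm_le_iff hd] at ha hb ⊢
    constructor
    · have := natDegree_add_le a.re b.re
      rw [QuadraticAlgebra.re_add]
      omega
    · rw [QuadraticAlgebra.im_add]
      by_cases h1 : a.im = 0
      · simpa [h1] using hb.2
      · by_cases h2 : b.im = 0
        · simpa [h2] using ha.2
        · right
          have := natDegree_add_le a.im b.im
          simp only [h1, h2, false_or] at ha hb
          omega
  smul_mem' := by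
    intro c a ha
    simp only [Set.mem_ofPred_eq, natDegree_norm_le_iff hd] at ha ⊢
    rw [QuadraticAlgebra.re_smul, QuadraticAlgebra.im_smul]
    constructor
    · have := natDegree_smul_le c a.re
      omega
    · by_cases h1 : a.im = 0
      · simp [h1]
      · right
        simp only [h1, false_or] at ha
        have := natDegree_smul_le c a.im
        omega

theorem mem_Fm {f : A[X]} {g : ℕ} {hd : f.natDegree = 2 * g + 1} {m : ℕ}
    {u : Q A f} : u ∈ Fm hd m ↔ u.norm.natDegree ≤ m := Iff.rfl

theorem Fm_mono {f : A[X]} {g : ℕ} (hd : f.natDegree = 2 * g + 1) {m m' : ℕ} (h : m ≤ m') :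
    Fm hd m ≤ Fm (A := A) hd m' := fun _ hu => le_trans hu h

theorem mul_mem_Fm {f : A[X]} {g : ℕ} (hd : f.natDegree = 2 * g + 1) {a b : ℕ} {u v : Q A f}
    (hu : u ∈ Fm hd a) (hv : v ∈ Fm hd b) : u * v ∈ Fm hd (a + b) := by
  rw [mem_Fm] at *
  rw [map_mul]
  exact le_trans natDegree_mul_le (add_le_add hu hv)

theorem pow_mem_Fm {f : A[X]} {g : ℕ} (hd : f.natDegree = 2 * g + 1) {a : ℕ} {u : Q A f}
    (hu : u ∈ Fm hd a) (k : ℕ) : u ^ k ∈ Fm hd (k * a) := by
  rw [mem_Fm] at *
  rw [natDegree_norm_pow]
  exact Nat.mul_le_mul_left _ hu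

theorem mem_Fm_coeff {f : A[X]} {g : ℕ} {hd : f.natDegree = 2 * g + 1} {m : ℕ}
    {u : Q A f} : u ∈ Fm hd m ↔
      (∀ i, m / 2 < i → u.re.coeff i = 0) ∧ (∀ i, (m + 1 - 2 * g) / 2 ≤ i → u.im.coeff i = 0) := by
  rw [mem_Fm, natDegree_norm_le_iff hd]
  constructor
  · rintro ⟨h1, h2⟩
    constructor
    · intro i hi
      exact coeff_eq_zero_of_natDegree_lt (by omega)
    · intro i hi
      rcases h2 with h2 | h2
      · rw [h2]; simp
      · exact coeff_eq_zero_of_natDegree_lt (by omega)
  · rintro ⟨h1, h2⟩
    constructor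
    · have : u.re.natDegree ≤ m / 2 := natDegree_le_iff_coeff_eq_zero.2 fun i hi => h1 i hi
      omega
    · by_cases h0 : u.im = 0
      · exact Or.inl h0
      · right
        by_contra hlt
        push Not at hlt
        have := h2 u.im.natDegree (by omega)
        rw [coeff_natDegree, leadingCoeff_eq_zero] at this
        exact h0 this

end domain

end H58Q
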