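import Pool.Agent.Helper58_UB.Base

/-!
`k[x][y]/(y^2 - f)` is a Dedekind domain if `f` is squarefree and `2 ≠ 0`.
-/

set_option linter.style.haveILetI false
set_option linter.unusedVariables false

open Polynomial QuadraticAlgebra

namespace H58Q

section ded

variable {k : Type*} [Field k]

theorem sq_ne {f : k[X]} {g : ℕ} (hd : f.natDegree = 2 * g + 1) :
    ∀ r : RatFunc k, r ^ 2 ≠ algebraMap k[X] (RatFunc k) f + 0 * r := by
  intro r hr
  rw [zero_mul, add_zero] at hr
  have h1 : IsIntegral k[X] r := by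
    refine ⟨X ^ 2 - C f, monic_X_pow_sub_C _ (by norm_num), ?_⟩
    simp [hr]
  obtain ⟨s, rfl⟩ := IsIntegrallyClosed.isIntegral_iff.1 h1
  rw [← map_pow] at hr
  have h2 := (RatFunc.algebraMap_injective k) hr
  have h3 := congrArg natDegree h2
  rw [natDegree_pow, hd] at h3
  omega

/-- function field -/
abbrev FF (k : Type*) [Field k] (f : k[X]) : Type _ :=
  QuadraticAlgebra (RatFunc k) (algebraMap k[X] (RatFunc k) f) 0

/-- the natural map to the function field -/
noncomputable def toFF (f : k[X]) : Q k f →+* FF k f where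
  toFun u := ⟨algebraMap _ _ u.re, algebraMap _ _ u.im⟩
  map_one' := by ext <;> simp
  map_zero' := by ext <;> simp
  map_add' a b := by ext <;> simp
  map_mul' a b := by ext <;> simp

theorem toFF_injective (f : k[X]) : Function.Injective (toFF f) := by
  intro a b h
  have h1 := congrArg QuadraticAlgebra.re h
  have h2 := congrArg QuadraticAlgebra.im h
  exact QuadraticAlgebra.ext (RatFunc.algebraMap_injective k h1)
    (RatFunc.algebraMap_injective k h2)

/-- `star` as a ring automorphism over the base -/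
noncomputable def starHom {R : Type*} [CommRing R] (a b : R) :
    QuadraticAlgebra R a b →ₐ[R] QuadraticAlgebra R a b where
  toFun u := star u
  map_one' := star_one _
  map_zero' := star_zero _
  map_add' a b := star_add _ _
  map_mul' a b := by rw [star_mul, mul_comm]
  commutes' r := by ext <;> simp

theorem isIntegral_re {f : k[X]} {x : FF k f} (hx : IsIntegral k[X] x) (h2 : (2 : k) ≠ 0) :
    ∃ a : k[X], algebraMap _ _ a = x.re := by
  have h1 : IsIntegral k[X] (star x) := by
    have := hx.map ((starHom (algebraMap k[X] (RatFunc k) f) 0).restrictScalars k[X])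
    exact this
  have h3 := hx.add h1
  have h4 : x + star x = algebraMap (RatFunc k) (FF k f) (2 * x.re) := by
    ext <;> simp; ring
  rw [h4] at h3
  have h5 : IsIntegral k[X] (2 * x.re) :=
    (isIntegral_algebraMap_iff (QuadraticAlgebra.algebraMap_injective)).1 h3
  obtain ⟨c, hc⟩ := IsIntegrallyClosed.isIntegral_iff.1 h5
  refine ⟨C (2⁻¹) * c, ?_⟩
  rw [map_mul, hc, ← mul_assoc]
  have : algebraMap k[X] (RatFunc k) (C (2⁻¹ : k)) * 2 = 1 := by
    have h6 : (2 : RatFunc k) = algebraMap k[X] (RatFunc k) (C (2 : k)) := by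
      have : (C (2 : k) : k[X]) = 2 := map_ofNat C 2
      rw [this, map_ofNat]
    rw [h6, ← map_mul, ← Polynomial.C_mul, inv_mul_cancel₀ h2, Polynomial.C_1, map_one]
  rw [this, one_mul]

theorem isIntegral_im {f : k[X]} (hsq : Squarefree f) {x : FF k f} (hx : IsIntegral k[X] x)
    (h2 : (2 : k) ≠ 0) :
    ∃ a : k[X], algebraMap _ _ a = x.im := by
  obtain ⟨a, ha⟩ := isIntegral_re hx h2
  have h1 : IsIntegral k[X] (star x) := by
    have := hx.map ((starHom (algebraMap k[X] (RatFunc k) f) 0).restrictScalars k[X])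
    exact this
  have h3 := hx.mul h1
  rw [← algebraMap_norm_eq_mul_star] at h3
  have h5 : IsIntegral k[X] x.norm :=
    (isIntegral_algebraMap_iff (QuadraticAlgebra.algebraMap_injective)).1 h3
  obtain ⟨c, hc⟩ := IsIntegrallyClosed.isIntegral_iff.1 h5
  rw [QuadraticAlgebra.norm_def, ← ha] at hc
  -- f * x.im^2 = a^2 - c
  have h6 : algebraMap k[X] (RatFunc k) f * x.im ^ 2 = algebraMap k[X] (RatFunc k) (a ^ 2 - c) := by
    rw [map_sub, map_pow, hc]; ring
  -- write x.im as a fraction
  have h7 : IsIntegral k[X] (algebraMap k[X] (RatFunc k) f * x.im) := by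
    refine ⟨X ^ 2 - C (f * (a ^ 2 - c)), monic_X_pow_sub_C _ (by norm_num), ?_⟩
    simp only [eval₂_sub, eval₂_X_pow, eval₂_C]
    rw [map_mul, ← h6]; ring
  obtain ⟨e, he⟩ := IsIntegrallyClosed.isIntegral_iff.1 h7
  have hf0 : f ≠ 0 := hsq.ne_zero
  have hf0' : algebraMap k[X] (RatFunc k) f ≠ 0 := by simpa using hf0
  have h8 : e ^ 2 = f * (a ^ 2 - c) := by
    apply RatFunc.algebraMap_injective k
    rw [map_pow, he, map_mul, ← h6]; ring
  have h9 : f ∣ e := by
    have h10 : f ∣ e ^ 2 := ⟨_, h8⟩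
    exact (hsq.dvd_pow_iff_dvd (by norm_num)).1 h10
  obtain ⟨b, rfl⟩ := h9
  refine ⟨b, ?_⟩
  rw [map_mul] at he
  exact mul_left_cancel₀ hf0' he

theorem isDedekind {f : k[X]} {g : ℕ} (hd : f.natDegree = 2 * g + 1)
    (hsq : Squarefree f) (h2 : (2 : k) ≠ 0) : IsDedekindDomain (Q k f) := by
  haveI : Fact (∀ r : RatFunc k, r ^ 2 ≠ algebraMap k[X] (RatFunc k) f + 0 * r) :=
    ⟨sq_ne hd⟩
  haveI : IsDomain (Q k f) := isDomain hd
  letI : Algebra (Q k f) (FF k f) := (toFF f).toAlgebra
  have halg : ∀ u : Q k f, algebraMap (Q k f) (FF k f) u =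
      ⟨algebraMap _ _ u.re, algebraMap _ _ u.im⟩ := fun u => rfl
  haveI : FaithfulSMul (Q k f) (FF k f) :=
    (faithfulSMul_iff_algebraMap_injective _ _).2 (toFF_injective f)
  haveI hfr : IsFractionRing (Q k f) (FF k f) := by
    refine IsFractionRing.of_field _ _ ?_
    intro z
    obtain ⟨⟨c, hc⟩, hcz⟩ := IsLocalization.exist_integer_multiples
      (nonZeroDivisors k[X]) (Finset.univ : Finset (Fin 2))
      (fun i => if i = 0 then z.re else z.im : Fin 2 → RatFunc k)
    obtain ⟨a, ha⟩ := hcz 0 (by simp)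
    obtain ⟨b, hb⟩ := hcz 1 (by simp)
    simp only [if_true] at ha
    simp only [one_ne_zero, if_false] at hb
    have hc0 : c ≠ 0 := nonZeroDivisors.ne_zero hc
    have hc0' : (algebraMap k[X] (RatFunc k) c) ≠ 0 := by
      simpa using hc0
    refine ⟨⟨a, b⟩, ⟨c, 0⟩, ?_⟩
    have hne : (algebraMap (Q k f) (FF k f)) ⟨c, 0⟩ ≠ 0 := by
      intro h
      have := congrArg QuadraticAlgebra.re h
      simp only [halg, re_zero] at this
      exact hc0' this
    rw [eq_div_iff hne]
    ext
    · simp only [halg, re_mul, map_zero, mul_zero, add_zero]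
      rw [ha, Algebra.smul_def, mul_comm]
    · simp only [halg, im_mul, map_zero, mul_zero, add_zero, zero_add]
      rw [hb, Algebra.smul_def, mul_comm]
  haveI : IsScalarTower k[X] (Q k f) (FF k f) := by
    refine IsScalarTower.of_algebraMap_eq ?_
    intro r
    ext
    · simp [halg]
      rfl
    · simp [halg]
      rfl
  haveI : Algebra.IsIntegral k[X] (Q k f) := inferInstance
  rw [isDedekindDomain_iff (Q k f) (FF k f)]
  refine ⟨isDomain hd, ?_, ?_, ?_⟩
  · exact IsNoetherianRing.of_finite k[X] (Q k f)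
  · exact Ring.DimensionLEOne.of_isIntegral k[X] (Q k f)
  · intro x hx
    have hx' : IsIntegral k[X] x := isIntegral_trans x hx
    obtain ⟨a, ha⟩ := isIntegral_re hx' h2
    obtain ⟨b, hb⟩ := isIntegral_im hsq hx' h2
    exact ⟨⟨a, b⟩, by rw [halg]; ext; exacts [ha, hb]⟩

end ded

end H58Q
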