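import Pool.Agent.Helper58_UB.Colen

/-!
A bound for the class number of `k[x][y]/(y^2 - f)` over a finite field `k`.
-/

set_option linter.style.haveILetI false
set_option linter.unusedVariables false

open Polynomial

namespace H58Q

section classnumber

variable {k : Type*} [Field k]

/-- An ideal of colength at most `g` contains a nonzero polynomial of degree at most `g`. -/
theorem exists_poly_le {f : k[X]} {g : ℕ} (hd : f.natDegree = 2 * g + 1) {J : Ideal (Q k f)}
    (hJ : J ≠ ⊥) (hg : colen J ≤ g) :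
    ∃ w : k[X], w ≠ 0 ∧ w.natDegree ≤ g ∧ algebraMap k[X] (Q k f) w ∈ J := by
  haveI := finite_quot hd hJ
  let φ : (degreeLT k (g + 1)) →ₗ[k] (Q k f ⧸ J) :=
    ((Ideal.Quotient.mkₐ k J).toLinearMap).comp
      ((Algebra.linearMap k[X] (Q k f)).restrictScalars k |>.comp (degreeLT k (g + 1)).subtype)
  have hφ : ∀ w, φ w = Ideal.Quotient.mk J (algebraMap k[X] (Q k f) w.1) := fun w => rfl
  have h1 : LinearMap.ker φ ≠ ⊥ := by
    intro h
    have h2 := LinearMap.finrank_le_finrank_of_injective (LinearMap.ker_eq_bot.1 h)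
    have h3 : Module.finrank k (degreeLT k (g + 1)) = g + 1 := by
      rw [LinearEquiv.finrank_eq (degreeLTEquiv k (g + 1))]; simp
    rw [h3] at h2
    exact absurd (le_trans h2 hg) (by omega)
  obtain ⟨⟨w, hw⟩, hw1, hw0⟩ := Submodule.exists_mem_ne_zero_of_ne_bot h1
  have hw0' : w ≠ 0 := by rintro rfl; exact hw0 rfl
  refine ⟨w, hw0', ?_, ?_⟩
  · rw [mem_degreeLT] at hw
    have := (natDegree_lt_iff_degree_lt hw0').2 hw
    omega
  · rw [LinearMap.mem_ker, hφ, Ideal.Quotient.eq_zero_iff_mem] at hw1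
    exact hw1

theorem algebraMap_mem_Fm {f : k[X]} {g : ℕ} (hd : f.natDegree = 2 * g + 1) {w : k[X]} {m : ℕ}
    (hw : 2 * w.natDegree ≤ m) : algebraMap k[X] (Q k f) w ∈ Fm hd m := by
  rw [mem_Fm, QuadraticAlgebra.norm_algebraMap, natDegree_pow]
  exact hw

/-- an ideal of small colength is determined by its part in `Fm (4g)` -/
theorem le_of_inter {f : k[X]} {g : ℕ} (hd : f.natDegree = 2 * g + 1) {J J' : Ideal (Q k f)}
    (hJ : J ≠ ⊥) (hg : colen J ≤ g) (h : ∀ u ∈ Fm hd (4 * g), u ∈ J → u ∈ J') : J ≤ J' := by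
  intro u hu
  obtain ⟨w, hw0, hwg, hwJ⟩ := exists_poly_le hd hJ hg
  have hwJ' : algebraMap k[X] (Q k f) w ∈ J' := h _ (algebraMap_mem_Fm hd (by omega)) hwJ
  obtain ⟨v, hv, huv⟩ := exists_rep hd (I := Ideal.span {algebraMap k[X] (Q k f) w}) hw0
    (Ideal.mem_span_singleton_self _) u (s := 4 * g) (by omega)
  have h1 : u - v ∈ J := (Ideal.span_singleton_le_iff_mem _).2 hwJ huv
  have h2 : u - v ∈ J' := (Ideal.span_singleton_le_iff_mem _).2 hwJ' huv
  have h3 : v ∈ J := by
    have := J.sub_mem hu h1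
    rwa [sub_sub_cancel] at this
  have h4 := J'.add_mem h2 (h v hv h3)
  rwa [sub_add_cancel] at h4

theorem card_classGroup [Finite k] {f : k[X]} {g : ℕ} (hd : f.natDegree = 2 * g + 1)
    [IsDedekindDomain (Q k f)] :
    Finite (ClassGroup (Q k f)) ∧
      Nat.card (ClassGroup (Q k f)) ≤ 2 ^ (Nat.card k ^ (3 * g + 2)) := by
  classical
  choose J hJ hJc hJg using fun c : ClassGroup (Q k f) => exists_reduced hd c
  let φ : ClassGroup (Q k f) → Set (Fm hd (4 * g)) := fun c => {u | u.1 ∈ J c}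
  have hinj : Function.Injective φ := by
    intro c c' h
    have h1 : ∀ u ∈ Fm hd (4 * g), (u ∈ J c ↔ u ∈ J c') := by
      intro u hu
      have := Set.ext_iff.1 h ⟨u, hu⟩
      exact this
    have h2 : J c = J c' := le_antisymm
      (le_of_inter hd (nonZeroDivisors.ne_zero (hJ c)) (hJg c) (fun u hu hu2 => (h1 u hu).1 hu2))
      (le_of_inter hd (nonZeroDivisors.ne_zero (hJ c')) (hJg c') (fun u hu hu2 => (h1 u hu).2 hu2))
    rw [← hJc c, ← hJc c']
    congr 1
    exact Subtype.ext h2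
  haveI : Finite (Fm hd (4 * g)) := Module.finite_of_finite k
  haveI : Fintype k := Fintype.ofFinite k
  haveI : Fintype (Fm hd (4 * g)) := Fintype.ofFinite _
  refine ⟨Finite.of_injective φ hinj, ?_⟩
  have h1 := Nat.card_le_card_of_injective φ hinj
  refine le_trans h1 ?_
  have h2 : Nat.card (Set (Fm hd (4 * g))) = 2 ^ Nat.card (Fm hd (4 * g)) := by
    rw [Nat.card_eq_fintype_card, Fintype.card_set, Nat.card_eq_fintype_card]
  rw [h2]
  apply Nat.pow_le_pow_right (by norm_num)
  rw [Module.natCard_eq_pow_finrank (K := k)]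
  rw [finrank_Fm]
  apply Nat.pow_le_pow_right
  · exact Nat.card_pos
  · omega

end classnumber

end H58Q
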