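import Pool.Agent.Helper58_UB.Inj
import Pool.Agent.Helper58_UB.ClassNumber
import Pool.Agent.Helper58_UB.QDed
import Pool.Agent.Helper27_UBT.Stmts

/-!
Good reduction bounds the torsion up to a power of the residue characteristic.
-/

set_option linter.style.haveILetI false
set_option linter.unusedVariables false
set_option linter.unusedSectionVars false

open Polynomial

namespace H58Q

section loc

variable {V : Type*} [CommRing V] [IsDomain V] [IsDiscreteValuationRing V]
variable {M : Type*} [Field M] [Algebra V M] [IsFractionRing V M]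
variable {f : V[X]}

/-- squarefreeness over the generic fibre from the special fibre -/
theorem squarefree_generic (M : Type*) [Field M] [Algebra V M] [IsFractionRing V M]
    (hf : f.Monic) (hs : Squarefree (f.map (IsLocalRing.residue V))) :
    Squarefree (f.map (algebraMap V M)) := by
  intro h hh
  have h1 : h ∣ f.map (algebraMap V M) := dvd_trans (dvd_mul_right h h) hh
  have h0 : h ≠ 0 := by
    rintro rfl
    rw [mul_zero, zero_dvd_iff] at hh
    exact (hf.map (algebraMap V M)).ne_zero hh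
  obtain ⟨h', hh'⟩ := IsIntegrallyClosed.eq_map_mul_C_of_dvd M hf h1
  have hlc : h.leadingCoeff ≠ 0 := leadingCoeff_ne_zero.2 h0
  have hu : IsUnit (C h.leadingCoeff) := isUnit_C.2 (isUnit_iff_ne_zero.2 hlc)
  have hmon : h'.Monic := by
    have h2 : (h'.map (algebraMap V M)).leadingCoeff * h.leadingCoeff = h.leadingCoeff := by
      conv_rhs => rw [← hh']
      rw [leadingCoeff_mul, leadingCoeff_C]
    have h3 : (h'.map (algebraMap V M)).leadingCoeff = 1 := by
      exact mul_right_cancel₀ hlc (by rw [h2, one_mul])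
    rw [leadingCoeff_map_of_injective (IsFractionRing.injective V M)] at h3
    exact IsFractionRing.injective V M (by rw [h3, map_one])
  have h2 : (h' * h').map (algebraMap V M) ∣ f.map (algebraMap V M) := by
    rw [Polynomial.map_mul]
    refine dvd_trans ?_ hh
    rw [← hh']
    exact mul_dvd_mul (dvd_mul_right _ _) (dvd_mul_right _ _)
  rw [map_dvd_map _ (IsFractionRing.injective V M) (hmon.mul hmon)] at h2
  have h3 := Polynomial.map_dvd (IsLocalRing.residue V) h2
  rw [Polynomial.map_mul] at h3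
  have h4 := hs _ h3
  have h5 : h' = 1 := by
    apply hmon.natDegree_eq_zero.1
    rw [← hmon.natDegree_map (IsLocalRing.residue V)]
    exact natDegree_eq_zero_of_isUnit h4
  rw [← hh', h5, Polynomial.map_one, one_mul]
  exact hu

theorem Ib_principal {g : ℕ} (hf : f.Monic) (hd : f.natDegree = 2 * g + 1)
    {I : Ideal (Q M (f.map (algebraMap V M)))} (hI : I ≠ ⊥) (hP : I.IsPrincipal) :
    (Ib I).IsPrincipal := by
  obtain ⟨⟨x, hx⟩⟩ := hP
  change I = Ideal.span {x} at hx
  have hx0 : x ≠ 0 := by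
    rintro rfl
    rw [Ideal.span_singleton_eq_bot.2 rfl] at hx
    exact hI hx
  obtain ⟨c, u, hc, hcu, hu⟩ := exists_prim hx0
  have hspan : Ideal.span {x} = Ideal.span {io M f u} := by
    rw [← hcu]
    apply le_antisymm
    · rw [Ideal.span_singleton_le_iff_mem]
      exact smul_mem_ideal _ (Ideal.mem_span_singleton_self _)
    · rw [Ideal.span_singleton_le_iff_mem]
      have := smul_mem_ideal c⁻¹ (Ideal.mem_span_singleton_self (c • io M f u))
      rwa [smul_smul, inv_mul_cancel₀ hc, one_smul] at this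
  rw [hx, hspan, Ib_span hf hd hu]
  exact ⟨⟨_, rfl⟩⟩

theorem loc_aux {g : ℕ} (hf : f.Monic) (hd : f.natDegree = 2 * g + 1)
    [IsDedekindDomain (Q M (f.map (algebraMap V M)))]
    [IsDedekindDomain (Q (IsLocalRing.ResidueField V) (f.map (IsLocalRing.residue V)))]
    [Finite (IsLocalRing.ResidueField V)] (p : ℕ) [hp : Fact p.Prime]
    [CharP (IsLocalRing.ResidueField V) p]
    (c : ClassGroup (Q M (f.map (algebraMap V M)))) (hc : IsOfFinOrder c) :
    ∃ m a : ℕ, orderOf c = m * p ^ a ∧ 1 ≤ m ∧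
      m ≤ 2 ^ ((Nat.card (IsLocalRing.ResidueField V)) ^ (3 * g + 2)) := by
  obtain ⟨I, hI, hIc, hG⟩ := exists_good hf hd c
  have hI0 : I ≠ ⊥ := nonZeroDivisors.ne_zero hI
  have hIb0 : Ib I ≠ ⊥ := Ib_ne_bot hI0
  obtain ⟨hfin, hcard⟩ := card_classGroup (k := IsLocalRing.ResidueField V) (natDegree_k hf hd)
  obtain ⟨cb, hcb⟩ : ∃ cb, cb = ClassGroup.mk0 ⟨Ib I, mem_nonZeroDivisors_of_ne_zero hIb0⟩ :=
    ⟨_, rfl⟩
  have hcn : ∀ n : ℕ, c ^ n = 1 ↔ (I ^ n).IsPrincipal := by
    intro n
    rw [← hIc, ← map_pow]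
    exact ClassGroup.mk0_eq_one_iff (pow_mem hI n)
  have hcbn : ∀ n : ℕ, cb ^ n = 1 ↔ ((Ib I) ^ n).IsPrincipal := by
    intro n
    rw [hcb, ← map_pow]
    exact ClassGroup.mk0_eq_one_iff (pow_mem (mem_nonZeroDivisors_of_ne_zero hIb0) n)
  have h1 : ∀ n : ℕ, c ^ n = 1 → cb ^ n = 1 := by
    intro n hn
    rw [hcbn, ← Ib_pow hf hd hI0 hG]
    exact Ib_principal hf hd (pow_ne_zero n hI0) ((hcn n).1 hn)
  have h2 : ∀ (n l : ℕ), l.Prime → l ≠ p → c ^ (n * l) = 1 → cb ^ n = 1 → c ^ n = 1 := by
    intro n l hl hlp hnl hn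
    rw [hcn] at hnl ⊢
    rw [hcbn, ← Ib_pow hf hd hI0 hG] at hn
    rw [pow_mul] at hnl
    refine principal_of_red hf hd (pow_ne_zero n hI0) (hG.pow n) hl.one_lt.le ?_ hnl hn
    intro h
    rw [CharP.cast_eq_zero_iff (IsLocalRing.ResidueField V) p] at h
    exact hlp ((Nat.prime_dvd_prime_iff_eq hp.out hl).1 h).symm
  have hN : 0 < orderOf c := hc.orderOf_pos
  have hm : 0 < orderOf cb := orderOf_pos cb
  obtain ⟨t, ht⟩ : orderOf cb ∣ orderOf c := by
    rw [orderOf_dvd_iff_pow_eq_one]
    exact h1 _ (pow_orderOf_eq_one c)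
  have ht0 : t ≠ 0 := by
    rintro rfl
    omega
  have hpt : t = p ^ t.primeFactorsList.length := by
    apply Nat.eq_prime_pow_of_unique_prime_dvd ht0
    intro l hl hlt
    by_contra hlp
    obtain ⟨s, rfl⟩ := hlt
    have hs0 : 0 < s := by
      rcases Nat.eq_zero_or_pos s with h | h
      · subst h; simp at ht0
      · exact h
    have h3 : c ^ (orderOf cb * s) = 1 := by
      apply h2 _ l hl hlp
      · have : orderOf cb * s * l = orderOf c := by rw [ht]; ring
        rw [this, pow_orderOf_eq_one]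
      · rw [pow_mul, pow_orderOf_eq_one, one_pow]
    have h4 := Nat.le_of_dvd (Nat.mul_pos hm hs0) (orderOf_dvd_of_pow_eq_one h3)
    rw [ht] at h4
    have h5 : orderOf cb * s * 1 < orderOf cb * s * l :=
      Nat.mul_lt_mul_of_pos_left hl.one_lt (Nat.mul_pos hm hs0)
    have h6 : orderOf cb * (l * s) = orderOf cb * s * l := by ring
    omega
  refine ⟨orderOf cb, t.primeFactorsList.length, ?_, hm, ?_⟩
  · rw [← hpt]; exact ht
  · refine le_trans ?_ hcard
    exact Nat.le_of_dvd Nat.card_pos (orderOf_dvd_natCard cb)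

end loc

theorem two_ne_k {V : Type*} [CommRing V] [IsDomain V] [IsDiscreteValuationRing V] {p : ℕ}
    [hp : Fact p.Prime] [CharP (IsLocalRing.ResidueField V) p] (h2 : p ≠ 2) :
    (2 : IsLocalRing.ResidueField V) ≠ 0 := by
  intro h
  have h3 : ((2 : ℕ) : IsLocalRing.ResidueField V) = 0 := by exact_mod_cast h
  rw [CharP.cast_eq_zero_iff (IsLocalRing.ResidueField V) p] at h3
  exact h2 ((Nat.prime_dvd_prime_iff_eq hp.out Nat.prime_two).1 h3)

theorem two_ne_M {V : Type*} [CommRing V] [IsDomain V] [IsDiscreteValuationRing V] {p : ℕ}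
    (M : Type*) [Field M] [Algebra V M] [IsFractionRing V M]
    [hp : Fact p.Prime] [CharP (IsLocalRing.ResidueField V) p] (h2 : p ≠ 2) :
    (2 : M) ≠ 0 := by
  intro h
  have h3 : (2 : V) = 0 := by
    apply IsFractionRing.injective V M
    rw [map_zero, map_ofNat, h]
  apply two_ne_k (V := V) h2
  have := congrArg (IsLocalRing.residue V) h3
  rwa [map_ofNat, map_zero] at this

theorem loc : UBT.LocStmt := by
  intro V M _ _ _ _ _ _ _ p _ _ hp2 f g hf hd hsep _ c hc
  have hsq := hsep.squarefree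
  haveI h1 : IsDedekindDomain (Q M (f.map (algebraMap V M))) :=
    isDedekind (natDegree_M hd) (squarefree_generic M hf hsq) (two_ne_M (V := V) (p := p) M hp2)
  haveI h2 : IsDedekindDomain
      (Q (IsLocalRing.ResidueField V) (f.map (IsLocalRing.residue V))) :=
    isDedekind (natDegree_k hf hd) hsq (two_ne_k (p := p) hp2)
  exact loc_aux hf hd p c hc

theorem ded : UBT.DedStmt := by
  intro F _ f hodd h2 hsq
  obtain ⟨g, hg⟩ := hodd.out
  exact isDedekind hg hsq h2

end H58Q
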