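import Mathlib

/-!
The affine coordinate ring of the curve y^2 + h(x) y = rho(x) over a commutative ring `A`,
with `h` monic of degree `g+1` and `deg rho ≤ g`, and its expansion at the point at infinity
at which `y` has a pole of order less than `g+1` (in fact `y` vanishes there).
-/

open Polynomial

namespace H58UB

/-- The coordinate ring `A[x][y] / (y^2 + h y - r)` (here `ω = y`, `ω^2 = r - h ω`). -/
abbrev CR (A : Type*) [CommRing A] (h r : A[X]) : Type _ := QuadraticAlgebra A[X] r (-h)

/-- The shape of the equation: `h` is monic of degree `g+1` and `r` has degree at most `g`. -/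
structure Shape {A : Type*} [CommRing A] (g : ℕ) (h r : A[X]) : Prop where
  monic : h.Monic
  deg : h.natDegree = g + 1
  degr : r.natDegree ≤ g

section general

variable {A B : Type*} [CommRing A] [CommRing B]

/-- The substitution `x ↦ 1/t`. -/
noncomputable def ex (A : Type*) [CommRing A] : A[X] →+* LaurentSeries A :=
  eval₂RingHom (HahnSeries.C) (HahnSeries.single (-1 : ℤ) 1)

theorem ex_C (a : A) : ex A (C a) = HahnSeries.C a := by
  simp [ex]

theorem ex_X : ex A X = HahnSeries.single (-1 : ℤ) 1 := by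
  simp [ex]

theorem single_pow' (n : ℕ) :
    (HahnSeries.single (-1 : ℤ) (1 : A)) ^ n = HahnSeries.single (-(n : ℤ)) 1 := by
  rw [HahnSeries.single_pow]
  simp

theorem ex_monomial (n : ℕ) (a : A) :
    ex A (monomial n a) = HahnSeries.single (-(n : ℤ)) a := by
  rw [← C_mul_X_pow_eq_monomial, map_mul, map_pow, ex_C, ex_X, single_pow',
    HahnSeries.C_apply, HahnSeries.single_mul_single]
  simp

theorem coeff_ex_neg (p : A[X]) (n : ℕ) : (ex A p).coeff (-(n : ℤ)) = p.coeff n := by
  induction p using Polynomial.induction_on' with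
  | add p q hp hq => rw [map_add, HahnSeries.coeff_add, hp, hq, coeff_add]
  | monomial m a =>
    rw [ex_monomial, coeff_monomial]
    by_cases h : m = n
    · subst h; simp
    · rw [HahnSeries.coeff_single_of_ne, if_neg h]
      intro h2; apply h; omega

theorem coeff_ex_pos (p : A[X]) {j : ℤ} (hj : 0 < j) : (ex A p).coeff j = 0 := by
  induction p using Polynomial.induction_on' with
  | add p q hp hq => rw [map_add, HahnSeries.coeff_add, hp, hq, add_zero]
  | monomial m a =>
    rw [ex_monomial, HahnSeries.coeff_single_of_ne]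
    intro h2; omega

theorem coeff_ex_of_lt (p : A[X]) {j : ℤ} {n : ℕ} (hp : p.natDegree ≤ n) (hj : j < -(n : ℤ)) :
    (ex A p).coeff j = 0 := by
  obtain ⟨k, rfl⟩ : ∃ k : ℕ, j = -(k : ℤ) := ⟨(-j).toNat, by omega⟩
  rw [coeff_ex_neg]
  apply coeff_eq_zero_of_natDegree_lt
  omega

theorem ex_injective : Function.Injective (ex A) := by
  intro p q h
  ext n
  rw [← coeff_ex_neg, h, coeff_ex_neg]

/-- Multiplying by a power of `t`. -/
theorem single_mul_ex (p : A[X]) (N : ℕ) (hp : p.natDegree ≤ N) :
    HahnSeries.single (N : ℤ) (1 : A) * ex A p =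
      ((reflect N p : A[X]) : PowerSeries A) := by
  ext j
  rw [HahnSeries.coeff_single_mul, one_mul]
  rcases lt_or_ge j 0 with hj | hj
  · rw [coeff_ex_of_lt p hp (by omega)]
    rw [HahnSeries.ofPowerSeries_apply]
    rw [HahnSeries.embDomain_of_notMem_range]
    simp only [Set.mem_range, not_exists]
    intro n hn
    change (n : ℤ) = j at hn
    omega
  · obtain ⟨k, rfl⟩ := Int.eq_ofNat_of_zero_le hj
    rw [LaurentSeries.coeff_coe_powerSeries, Polynomial.coeff_coe, coeff_reflect]
    rcases le_or_gt k N with hk | hk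
    · rw [revAt_le hk]
      have : ((k : ℤ) - N) = -((N - k : ℕ) : ℤ) := by omega
      rw [this, coeff_ex_neg]
    · rw [coeff_ex_pos p (by omega), revAt_eq_self_of_lt hk]
      rw [coeff_eq_zero_of_natDegree_lt (by omega)]

/-- coefficientwise map of Laurent series -/
noncomputable def lmap (φ : A →+* B) : LaurentSeries A →+* LaurentSeries B where
  toFun s := s.map φ
  map_one' := by
    ext j
    simp only [HahnSeries.map_coeff, HahnSeries.coeff_one]
    split_ifs <;> simp
  map_mul' a b := by
    exact HahnSeries.map_mul (φ : A →ₙ+* B)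
  map_zero' := by
    ext j; simp
  map_add' a b := by
    ext j; simp

@[simp] theorem coeff_lmap (φ : A →+* B) (s : LaurentSeries A) (j : ℤ) :
    (lmap φ s).coeff j = φ (s.coeff j) := rfl

theorem lmap_ex (φ : A →+* B) (p : A[X]) : lmap φ (ex A p) = ex B (p.map φ) := by
  ext j
  rw [coeff_lmap]
  rcases lt_or_ge 0 j with hj | hj
  · rw [coeff_ex_pos p hj, coeff_ex_pos _ hj, map_zero]
  · obtain ⟨k, rfl⟩ : ∃ k : ℕ, j = -(k : ℤ) := ⟨(-j).toNat, by omega⟩
    rw [coeff_ex_neg, coeff_ex_neg, coeff_map]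

/-- All coefficients below `n` vanish. -/
def Ge (n : ℤ) (s : LaurentSeries A) : Prop := ∀ j, j < n → s.coeff j = 0

theorem Ge.mono {n m : ℤ} {s : LaurentSeries A} (h : Ge n s) (hm : m ≤ n) : Ge m s :=
  fun j hj => h j (lt_of_lt_of_le hj hm)

theorem Ge.add {n : ℤ} {s t : LaurentSeries A} (hs : Ge n s) (ht : Ge n t) : Ge n (s + t) := by
  intro j hj; rw [HahnSeries.coeff_add, hs j hj, ht j hj, add_zero]

theorem Ge.neg {n : ℤ} {s : LaurentSeries A} (hs : Ge n s) : Ge n (-s) := by
  intro j hj; rw [HahnSeries.coeff_neg, hs j hj, neg_zero]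

theorem Ge.sub {n : ℤ} {s t : LaurentSeries A} (hs : Ge n s) (ht : Ge n t) : Ge n (s - t) := by
  intro j hj; rw [HahnSeries.coeff_sub, hs j hj, ht j hj, sub_zero]

theorem ge_zero (n : ℤ) : Ge n (0 : LaurentSeries A) := by
  intro j _; rfl

theorem Ge.shift {n : ℤ} {s : LaurentSeries A} (hs : Ge n s) (m : ℤ) :
    Ge (n + m) (HahnSeries.single m (1 : A) * s) := by
  intro j hj
  rw [HahnSeries.coeff_single_mul, one_mul]
  exact hs _ (by omega)

/-- A Laurent series with vanishing negative coefficients is a power series. -/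
theorem ge_zero_iff {s : LaurentSeries A} :
    Ge 0 s ↔ ∃ p : PowerSeries A, s = HahnSeries.ofPowerSeries ℤ A p := by
  constructor
  · intro h
    refine ⟨PowerSeries.mk fun n => s.coeff n, ?_⟩
    ext j
    rcases lt_or_ge j 0 with hj | hj
    · rw [h j hj]
      rw [HahnSeries.ofPowerSeries_apply, HahnSeries.embDomain_of_notMem_range]
      simp only [Set.mem_range, not_exists]
      intro n hn
      change (n : ℤ) = j at hn
      omega
    · obtain ⟨k, rfl⟩ := Int.eq_ofNat_of_zero_le hj
      rw [LaurentSeries.coeff_coe_powerSeries, PowerSeries.coeff_mk]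
  · rintro ⟨p, rfl⟩ j hj
    rw [HahnSeries.ofPowerSeries_apply, HahnSeries.embDomain_of_notMem_range]
    simp only [Set.mem_range, not_exists]
    intro n hn
    change (n : ℤ) = j at hn
    omega

theorem ge_ofPowerSeries (p : PowerSeries A) : Ge 0 (HahnSeries.ofPowerSeries ℤ A p) :=
  ge_zero_iff.2 ⟨p, rfl⟩

theorem ge_iff {n : ℤ} {s : LaurentSeries A} :
    Ge n s ↔ ∃ p : PowerSeries A, s = HahnSeries.single n (1 : A) * HahnSeries.ofPowerSeries ℤ A p := by
  constructor
  · intro h
    have h2 : Ge 0 (HahnSeries.single (-n) (1 : A) * s) := by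
      have := h.shift (-n)
      simpa using this
    obtain ⟨p, hp⟩ := ge_zero_iff.1 h2
    refine ⟨p, ?_⟩
    rw [← hp, ← mul_assoc, HahnSeries.single_mul_single]
    simp
  · rintro ⟨p, rfl⟩
    have := (ge_ofPowerSeries p).shift n
    simpa using this

theorem Ge.mul {n m : ℤ} {s t : LaurentSeries A} (hs : Ge n s) (ht : Ge m t) :
    Ge (n + m) (s * t) := by
  obtain ⟨p, rfl⟩ := ge_iff.1 hs
  obtain ⟨q, rfl⟩ := ge_iff.1 ht
  rw [ge_iff]
  refine ⟨p * q, ?_⟩
  rw [map_mul, mul_mul_mul_comm, HahnSeries.single_mul_single, one_mul]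

theorem Ge.coeff_mul {n m : ℤ} {s t : LaurentSeries A} (hs : Ge n s) (ht : Ge m t) :
    (s * t).coeff (n + m) = s.coeff n * t.coeff m := by
  obtain ⟨p, rfl⟩ := ge_iff.1 hs
  obtain ⟨q, rfl⟩ := ge_iff.1 ht
  rw [mul_mul_mul_comm, HahnSeries.single_mul_single, one_mul, ← map_mul]
  rw [HahnSeries.coeff_single_mul, HahnSeries.coeff_single_mul, HahnSeries.coeff_single_mul]
  simp only [one_mul, sub_self]
  have h0 : ∀ u : PowerSeries A, (HahnSeries.ofPowerSeries ℤ A u).coeff 0 =
      PowerSeries.constantCoeff u := by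
    intro u
    have := LaurentSeries.coeff_coe_powerSeries u 0
    simpa using this
  rw [h0, h0, h0, map_mul]

theorem Ge.pow {n : ℤ} {s : LaurentSeries A} (hs : Ge n s) (k : ℕ) : Ge (k * n) (s ^ k) := by
  induction k with
  | zero =>
    intro j hj
    rw [pow_zero, HahnSeries.coeff_one, if_neg]
    simp at hj; omega
  | succ k ih =>
    rw [pow_succ]
    have := ih.mul hs
    refine this.mono (le_of_eq ?_)
    push_cast; ring

theorem Ge.coeff_pow {n : ℤ} {s : LaurentSeries A} (hs : Ge n s) (k : ℕ) :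
    (s ^ k).coeff (k * n) = s.coeff n ^ k := by
  induction k with
  | zero => simp
  | succ k ih =>
    rw [pow_succ, pow_succ, ← ih, ← Ge.coeff_mul (hs.pow k) hs]
    congr 1
    push_cast; ring

end general

end H58UB
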