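import Pool.Agent.Helper58_UB.Coord

/-!
Colengths of ideals of `k[x][y]/(y^2 - f)` over a field `k`.
-/

set_option linter.style.haveILetI false
set_option linter.unusedVariables false

open Polynomial

namespace H58Q

section colen

variable {k : Type*} [Field k]

/-- The colength of an ideal. -/
noncomputable def colen {f : k[X]} (I : Ideal (Q k f)) : ℕ := Module.finrank k (Q k f ⧸ I)

theorem algebra_norm_eq {f : k[X]} (u : Q k f) : Algebra.norm k[X] u = u.norm := by
  rw [← QuadraticAlgebra.det_toLinearMap_eq_norm, Algebra.norm_apply]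
  rfl

theorem colen_span {f : k[X]} {g : ℕ} (hd : f.natDegree = 2 * g + 1) {u : Q k f} (hu : u ≠ 0) :
    colen (Ideal.span {u}) = u.norm.natDegree := by
  haveI : IsDomain (Q k f) := isDomain hd
  rw [colen, finrank_quotient_span_eq_natDegree_norm (QuadraticAlgebra.basis f 0) hu,
    algebra_norm_eq]

theorem norm_mem {f : k[X]} {I : Ideal (Q k f)} {u : Q k f} (hu : u ∈ I) :
    algebraMap k[X] (Q k f) u.norm ∈ I := by
  rw [QuadraticAlgebra.algebraMap_norm_eq_mul_star]
  exact I.mul_mem_right _ hu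

/-- Division with remainder by a polynomial in the ideal. -/
theorem exists_rep {f : k[X]} {g : ℕ} (hd : f.natDegree = 2 * g + 1) {I : Ideal (Q k f)}
    {w : k[X]} (hw : w ≠ 0) (hwI : algebraMap k[X] (Q k f) w ∈ I) (u : Q k f) {s : ℕ}
    (hs : 2 * w.natDegree + 2 * g ≤ s) :
    ∃ v ∈ Fm hd s, u - v ∈ I := by
  refine ⟨⟨u.re % w, u.im % w⟩, ?_, ?_⟩
  · rw [mem_Fm_coeff]
    constructor
    · intro i hi
      apply coeff_eq_zero_of_degree_lt
      refine lt_of_lt_of_le (EuclideanDomain.mod_lt _ hw) ?_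
      rw [degree_eq_natDegree hw]
      exact_mod_cast (by omega)
    · intro i hi
      apply coeff_eq_zero_of_degree_lt
      refine lt_of_lt_of_le (EuclideanDomain.mod_lt _ hw) ?_
      rw [degree_eq_natDegree hw]
      exact_mod_cast (by omega)
  · have : u - ⟨u.re % w, u.im % w⟩ = algebraMap k[X] (Q k f) w * ⟨u.re / w, u.im / w⟩ := by
      have h1 := EuclideanDomain.div_add_mod u.re w
      have h2 := EuclideanDomain.div_add_mod u.im w
      ext1
      · simp only [QuadraticAlgebra.re_sub, QuadraticAlgebra.re_mul, QuadraticAlgebra.algebraMap_re,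
          QuadraticAlgebra.algebraMap_im]
        rw [sub_eq_iff_eq_add]
        nth_rewrite 1 [← h1]
        ring
      · simp only [QuadraticAlgebra.im_sub, QuadraticAlgebra.im_mul, QuadraticAlgebra.algebraMap_re,
          QuadraticAlgebra.algebraMap_im]
        rw [sub_eq_iff_eq_add]
        nth_rewrite 1 [← h2]
        ring
    rw [this]
    exact I.mul_mem_right _ hwI

/-- A nonzero ideal contains a nonzero polynomial in `x`. -/
theorem exists_poly {f : k[X]} {g : ℕ} (hd : f.natDegree = 2 * g + 1) {I : Ideal (Q k f)}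
    (hI : I ≠ ⊥) : ∃ w : k[X], w ≠ 0 ∧ algebraMap k[X] (Q k f) w ∈ I := by
  obtain ⟨u, hu, hu0⟩ := Submodule.exists_mem_ne_zero_of_ne_bot hI
  exact ⟨u.norm, norm_ne_zero hd hu0, norm_mem hu⟩

/-- the restriction of the quotient map to `Fm` -/
noncomputable def quo {f : k[X]} {g : ℕ} (hd : f.natDegree = 2 * g + 1) (I : Ideal (Q k f))
    (s : ℕ) : Fm hd s →ₗ[k] (Q k f ⧸ I) :=
  ((Ideal.Quotient.mkₐ k I).toLinearMap).comp (Fm hd s).subtype

theorem quo_apply {f : k[X]} {g : ℕ} (hd : f.natDegree = 2 * g + 1) (I : Ideal (Q k f))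
    (s : ℕ) (u : Fm hd s) : quo hd I s u = Ideal.Quotient.mk I u.1 := rfl

theorem quo_surjective {f : k[X]} {g : ℕ} (hd : f.natDegree = 2 * g + 1) {I : Ideal (Q k f)}
    {w : k[X]} (hw : w ≠ 0) (hwI : algebraMap k[X] (Q k f) w ∈ I) {s : ℕ}
    (hs : 2 * w.natDegree + 2 * g ≤ s) : Function.Surjective (quo hd I s) := by
  intro x
  obtain ⟨u, rfl⟩ := Ideal.Quotient.mk_surjective x
  obtain ⟨v, hv, huv⟩ := exists_rep hd hw hwI u hs
  refine ⟨⟨v, hv⟩, ?_⟩
  rw [quo_apply]
  exact (Ideal.Quotient.eq.2 huv).symm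

theorem finite_quot {f : k[X]} {g : ℕ} (hd : f.natDegree = 2 * g + 1) {I : Ideal (Q k f)}
    (hI : I ≠ ⊥) : Module.Finite k (Q k f ⧸ I) := by
  obtain ⟨w, hw, hwI⟩ := exists_poly hd hI
  exact Module.Finite.of_surjective _ (quo_surjective hd hw hwI le_rfl)

theorem colen_top {f : k[X]} : colen (⊤ : Ideal (Q k f)) = 0 := by
  rw [colen]
  haveI : Subsingleton (Q k f ⧸ (⊤ : Ideal (Q k f))) := Ideal.Quotient.subsingleton_iff.2 rfl
  exact Module.finrank_zero_of_subsingleton

/-- For `N ≤ N'` the colengths differ by the dimension of `N'/N`. -/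
theorem colen_eq_add {f : k[X]} {g : ℕ} (hd : f.natDegree = 2 * g + 1) {I J : Ideal (Q k f)}
    (hI : I ≠ ⊥) (hIJ : I ≤ J) :
    colen I = colen J + Module.finrank k (Submodule.map (Submodule.mkQ I) J) := by
  haveI := finite_quot hd hI
  have h1 := Submodule.finrank_quotient_add_finrank
    ((Submodule.map (Submodule.mkQ I) J).restrictScalars k)
  have h2 := (Submodule.quotientQuotientEquivQuotient I J hIJ).restrictScalars k
  have h3 := LinearEquiv.finrank_eq h2
  rw [colen, colen, ← h1, ← h3]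
  rfl

theorem colen_mono {f : k[X]} {g : ℕ} (hd : f.natDegree = 2 * g + 1) {I J : Ideal (Q k f)}
    (hI : I ≠ ⊥) (hIJ : I ≤ J) : colen J ≤ colen I := by
  rw [colen_eq_add hd hI hIJ]; omega

theorem eq_of_colen {f : k[X]} {g : ℕ} (hd : f.natDegree = 2 * g + 1) {I J : Ideal (Q k f)}
    (hI : I ≠ ⊥) (hIJ : I ≤ J) (h : colen I ≤ colen J) : I = J := by
  haveI := finite_quot hd hI
  rw [colen_eq_add hd hI hIJ] at h
  have h0 : Module.finrank k (Submodule.map (Submodule.mkQ I) J) = 0 := by omega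
  haveI : Module.Finite k (Submodule.map (Submodule.mkQ I) J) := by
    have : Module.Finite k ((Submodule.map (Submodule.mkQ I) J).restrictScalars k) := inferInstance
    exact this
  have h1 := Module.finrank_eq_zero_iff_of_free k (Submodule.map (Submodule.mkQ I) J) |>.1 h0
  have h2 : Submodule.map (Submodule.mkQ I) J = ⊥ := by
    rw [Submodule.eq_bot_iff]
    intro x hx
    have := Subsingleton.elim (⟨x, hx⟩ : Submodule.map (Submodule.mkQ I) J) 0
    exact congrArg Subtype.val this
  refine le_antisymm hIJ ?_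
  intro x hx
  have h3 : Submodule.mkQ I x ∈ Submodule.map (Submodule.mkQ I) J :=
    Submodule.mem_map_of_mem hx
  rw [h2, Submodule.mem_bot] at h3
  exact (Submodule.Quotient.mk_eq_zero I).1 h3

/-- additivity of colengths -/
theorem colen_mul {f : k[X]} {g : ℕ} (hd : f.natDegree = 2 * g + 1) [IsDedekindDomain (Q k f)]
    {I J : Ideal (Q k f)} (hI : I ≠ ⊥) (hJ : J ≠ ⊥) :
    colen (I * J) = colen I + colen J := by
  have hIJ : I * J ≠ ⊥ := mul_ne_zero hI hJ
  rw [colen_eq_add hd hIJ (Ideal.mul_le_left : I * J ≤ I)]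
  congr 1
  obtain ⟨a, ha⟩ := IsDedekindDomain.exists_sup_span_eq (Ideal.mul_le_left : I * J ≤ I) hIJ
  have haI : a ∈ I := by
    rw [← ha]
    exact Ideal.mem_sup_right (Ideal.mem_span_singleton_self a)
  -- the map r ↦ r a mod IJ
  let φ : Q k f →ₗ[Q k f] (Q k f ⧸ (I * J)) :=
    (Submodule.mkQ (I * J)).comp (LinearMap.toSpanSingleton (Q k f) (Q k f) a)
  have hφ : ∀ r, φ r = Submodule.mkQ (I * J) (r * a) := fun r => rfl
  have hker : LinearMap.ker φ = J := by
    ext r
    rw [LinearMap.mem_ker, hφ, Submodule.mkQ_apply, Submodule.Quotient.mk_eq_zero]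
    constructor
    · intro h
      have h1 : Ideal.span {r} * I ≤ J * I := by
        rw [← ha, Ideal.mul_sup, sup_le_iff, ha]
        constructor
        · rw [mul_comm J I]
          exact Ideal.mul_le_right
        · rw [Ideal.span_singleton_mul_span_singleton, Ideal.span_singleton_le_iff_mem, mul_comm J I]
          exact h
      have h2 : Ideal.span {r} ≤ J := by
        rw [← Ideal.dvd_iff_le] at h1 ⊢
        exact (mul_dvd_mul_iff_right hI).1 h1
      exact (Ideal.span_singleton_le_iff_mem _).1 h2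
    · intro h
      rw [mul_comm r a]
      exact Ideal.mul_mem_mul haI h
  have hrange : LinearMap.range φ = Submodule.map (Submodule.mkQ (I * J)) I := by
    apply le_antisymm
    · rintro _ ⟨r, rfl⟩
      rw [hφ]
      exact Submodule.mem_map_of_mem (I.mul_mem_left _ haI)
    · rintro _ ⟨x, hx, rfl⟩
      have hx' : x ∈ I * J ⊔ Ideal.span {a} := by rw [ha]; exact hx
      obtain ⟨y, hy, z, hz, rfl⟩ := Submodule.mem_sup.1 hx'
      obtain ⟨r, rfl⟩ := Ideal.mem_span_singleton'.1 hz
      refine ⟨r, ?_⟩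
      rw [hφ, map_add]
      have : Submodule.mkQ (I * J) y = 0 := (Submodule.Quotient.mk_eq_zero _).2 hy
      rw [this, zero_add]
  rw [← hrange]
  have e := (φ.quotKerEquivRange).restrictScalars k
  rw [← LinearEquiv.finrank_eq e, hker]
  rfl

theorem colen_pow {f : k[X]} {g : ℕ} (hd : f.natDegree = 2 * g + 1) [IsDedekindDomain (Q k f)]
    {I : Ideal (Q k f)} (hI : I ≠ ⊥) (n : ℕ) :
    colen (I ^ n) = n * colen I := by
  induction n with
  | zero => rw [pow_zero, Ideal.one_eq_top, colen_top, zero_mul]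
  | succ n ih => rw [pow_succ, colen_mul hd (pow_ne_zero n hI) hI, ih]; ring

/-- The part of an ideal inside `Fm`. -/
noncomputable def inter {f : k[X]} {g : ℕ} (hd : f.natDegree = 2 * g + 1) (I : Ideal (Q k f))
    (s : ℕ) : Submodule k (Fm hd s) := LinearMap.ker (quo hd I s)

theorem mem_inter {f : k[X]} {g : ℕ} {hd : f.natDegree = 2 * g + 1} {I : Ideal (Q k f)}
    {s : ℕ} {u : Fm hd s} : u ∈ inter hd I s ↔ u.1 ∈ I := by
  rw [inter, LinearMap.mem_ker, quo_apply, Ideal.Quotient.eq_zero_iff_mem]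

theorem le_finrank_inter {f : k[X]} {g : ℕ} (hd : f.natDegree = 2 * g + 1) {I : Ideal (Q k f)}
    (hI : I ≠ ⊥) (s : ℕ) :
    Module.finrank k (Fm hd s) ≤ Module.finrank k (inter hd I s) + colen I := by
  haveI := finite_quot hd hI
  have h1 := LinearMap.finrank_range_add_finrank_ker (quo hd I s)
  have h2 : Module.finrank k (LinearMap.range (quo hd I s)) ≤ colen I := Submodule.finrank_le _
  rw [inter]
  omega

theorem finrank_inter {f : k[X]} {g : ℕ} (hd : f.natDegree = 2 * g + 1) {I : Ideal (Q k f)}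
    {s : ℕ} (hs : Function.Surjective (quo hd I s)) :
    Module.finrank k (Fm hd s) = Module.finrank k (inter hd I s) + colen I := by
  have h1 := LinearMap.finrank_range_add_finrank_ker (quo hd I s)
  rw [LinearMap.range_eq_top.2 hs, finrank_top] at h1
  rw [inter, colen]
  omega

/-- every nonzero ideal contains a nonzero element of pole order at most `colen I + g` -/
theorem exists_small {f : k[X]} {g : ℕ} (hd : f.natDegree = 2 * g + 1) {I : Ideal (Q k f)}
    (hI : I ≠ ⊥) : ∃ a ∈ I, a ≠ 0 ∧ a.norm.natDegree ≤ colen I + g := by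
  have h1 := le_finrank_inter hd hI (colen I + g)
  rw [finrank_Fm] at h1
  have h2 : 0 < Module.finrank k (inter hd I (colen I + g)) := by omega
  haveI : Module.Finite k (Fm hd (colen I + g)) := inferInstance
  have h3 : inter hd I (colen I + g) ≠ ⊥ := by
    intro h3
    rw [h3, finrank_bot] at h2
    exact lt_irrefl _ h2
  obtain ⟨⟨u, hu⟩, hu2, hu0⟩ := Submodule.exists_mem_ne_zero_of_ne_bot h3
  refine ⟨u, mem_inter.1 hu2, ?_, hu⟩
  rintro rfl
  exact hu0 rfl

/-- an element of an ideal whose pole order is at most the colength generates it -/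
theorem eq_span {f : k[X]} {g : ℕ} (hd : f.natDegree = 2 * g + 1) {I : Ideal (Q k f)}
    {a : Q k f} (ha : a ∈ I) (ha0 : a ≠ 0) (h : a.norm.natDegree ≤ colen I) :
    I = Ideal.span {a} := by
  symm
  apply eq_of_colen hd
  · simpa using ha0
  · rwa [Ideal.span_singleton_le_iff_mem]
  · rwa [colen_span hd ha0]

/-- the pole order of a nonzero element of an ideal is at least the colength -/
theorem colen_le {f : k[X]} {g : ℕ} (hd : f.natDegree = 2 * g + 1) {I : Ideal (Q k f)}
    {a : Q k f} (ha : a ∈ I) (ha0 : a ≠ 0) : colen I ≤ a.norm.natDegree := by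
  rw [← colen_span hd ha0]
  apply colen_mono hd
  · simpa using ha0
  · rwa [Ideal.span_singleton_le_iff_mem]

/-- every ideal class is represented by an ideal of colength at most `g` -/
theorem exists_reduced {f : k[X]} {g : ℕ} (hd : f.natDegree = 2 * g + 1)
    [IsDedekindDomain (Q k f)] (c : ClassGroup (Q k f)) :
    ∃ (J : Ideal (Q k f)) (hJ : J ∈ nonZeroDivisors (Ideal (Q k f))),
      ClassGroup.mk0 ⟨J, hJ⟩ = c ∧ colen J ≤ g := by
  obtain ⟨⟨I, hI⟩, hIc⟩ := ClassGroup.mk0_surjective (c⁻¹)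
  have hI0 : I ≠ ⊥ := nonZeroDivisors.ne_zero hI
  obtain ⟨a, haI, ha0, hag⟩ := exists_small hd hI0
  obtain ⟨J, hJ⟩ : I ∣ Ideal.span {a} := by
    rw [Ideal.dvd_iff_le, Ideal.span_singleton_le_iff_mem]; exact haI
  have hspan : Ideal.span {a} ≠ ⊥ := by simpa using ha0
  have hJ0 : J ≠ ⊥ := by
    rintro rfl
    rw [Ideal.mul_bot] at hJ
    exact hspan hJ
  refine ⟨J, mem_nonZeroDivisors_of_ne_zero hJ0, ?_, ?_⟩
  · have h1 : ClassGroup.mk0 ⟨I, hI⟩ * ClassGroup.mk0 ⟨J, mem_nonZeroDivisors_of_ne_zero hJ0⟩ = 1 := by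
      rw [← map_mul, ClassGroup.mk0_eq_one_iff]
      change (I * J).IsPrincipal
      rw [← hJ]
      exact ⟨⟨a, rfl⟩⟩
    rw [hIc] at h1
    exact (inv_mul_eq_one.1 h1).symm
  · have h1 := colen_mul hd hI0 hJ0
    rw [← hJ, colen_span hd ha0] at h1
    omega

end colen

end H58Q
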