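import Pool.Agent.Helper58_UB.QDed

/-!
Coordinates on the spaces `Fm`.
-/

set_option linter.style.haveILetI false
set_option linter.unusedVariables false
set_option linter.unusedSectionVars false

open Polynomial

namespace H58Q

section coord

variable {A : Type*} [CommRing A] [IsDomain A]

/-- the polynomial with given coefficients -/
noncomputable def pol {n : ℕ} (c : Fin n → A) : A[X] := ∑ j : Fin n, monomial (j : ℕ) (c j)

theorem coeff_pol {n : ℕ} (c : Fin n → A) (i : ℕ) :
    (pol c).coeff i = if h : i < n then c ⟨i, h⟩ else 0 := by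
  rw [pol, finsetSum_coeff]
  simp only [coeff_monomial]
  split_ifs with h
  · rw [Finset.sum_eq_single ⟨i, h⟩]
    · simp
    · intro b _ hb
      rw [if_neg]
      intro h2; apply hb; exact Fin.ext h2
    · simp
  · apply Finset.sum_eq_zero
    intro b _
    rw [if_neg]
    have := b.2
    omega

/-- explicit coordinates on `Fm` -/
noncomputable def coord {f : A[X]} {g : ℕ} (hd : f.natDegree = 2 * g + 1) (m : ℕ) :
    Fm hd m ≃ₗ[A] (Fin (m / 2 + 1) → A) × (Fin ((m + 1 - 2 * g) / 2) → A) where
  toFun u := (fun i => u.1.re.coeff i, fun i => u.1.im.coeff i)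
  map_add' u v := by ext <;> simp
  map_smul' c u := by ext <;> simp
  invFun c := ⟨⟨pol c.1, pol c.2⟩, by
    rw [mem_Fm_coeff]
    constructor
    · intro i hi
      rw [coeff_pol, dif_neg (by omega)]
    · intro i hi
      rw [coeff_pol, dif_neg (by omega)]⟩
  left_inv u := by
    have hu := mem_Fm_coeff.1 u.2
    apply Subtype.ext
    ext i
    · rw [coeff_pol]
      split_ifs with h
      · rfl
      · exact (hu.1 i (by omega)).symm
    · rw [coeff_pol]
      split_ifs with h
      · rfl
      · exact (hu.2 i (by omega)).symm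
  right_inv c := by
    ext i
    · change (pol c.1).coeff i = c.1 i
      rw [coeff_pol, dif_pos i.2]
    · change (pol c.2).coeff i = c.2 i
      rw [coeff_pol, dif_pos i.2]

instance {f : A[X]} {g : ℕ} (hd : f.natDegree = 2 * g + 1) (m : ℕ) :
    Module.Finite A (Fm hd m) :=
  Module.Finite.equiv (coord hd m).symm

theorem finrank_Fm {f : A[X]} {g : ℕ} (hd : f.natDegree = 2 * g + 1) (m : ℕ) :
    Module.finrank A (Fm hd m) = (m / 2 + 1) + (m + 1 - 2 * g) / 2 := by
  rw [LinearEquiv.finrank_eq (coord hd m), Module.finrank_prod]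
  simp

end coord

end H58Q
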