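import Pool.Agent.Helper58_UB.Lat4

/-!
Every ideal class of the generic fibre has a good representative.
-/

set_option linter.style.haveILetI false
set_option linter.unusedVariables false
set_option linter.unusedSectionVars false

open Polynomial

namespace H58Q

section goodrep

variable {V : Type*} [CommRing V] [IsDomain V] [IsDiscreteValuationRing V]
variable {M : Type*} [Field M] [Algebra V M] [IsFractionRing V M]
variable {f : V[X]}

theorem io_mem_Fm {g : ℕ} (hd : f.natDegree = 2 * g + 1) {m : ℕ} {u : Q V f} :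
    io M f u ∈ Fm (natDegree_M (M := M) hd) m ↔ u ∈ Fm hd m := by
  rw [mem_Fm, mem_Fm, Q.norm_map, natDegree_map_eq_of_injective (IsFractionRing.injective V M)]

theorem red_mem_Fm {g : ℕ} (hf : f.Monic) (hd : f.natDegree = 2 * g + 1) {m : ℕ} {u : Q V f}
    (hu : u ∈ Fm hd m) : red f u ∈ Fm (natDegree_k hf hd) m := by
  rw [mem_Fm] at *
  rw [Q.norm_map]
  exact le_trans natDegree_map_le hu

theorem smul_mem_Fm_iff {g : ℕ} (hd : f.natDegree = 2 * g + 1) {m : ℕ} {c : V} (hc : c ≠ 0)
    {u : Q V f} : c • u ∈ Fm hd m ↔ u ∈ Fm hd m := by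
  constructor
  · intro h
    rw [mem_Fm_coeff] at *
    constructor
    · intro i hi
      have := h.1 i hi
      rw [QuadraticAlgebra.re_smul, coeff_smul, smul_eq_mul] at this
      exact (mul_eq_zero.1 this).resolve_left hc
    · intro i hi
      have := h.2 i hi
      rw [QuadraticAlgebra.im_smul, coeff_smul, smul_eq_mul] at this
      exact (mul_eq_zero.1 this).resolve_left hc
  · intro h
    exact Submodule.smul_mem _ _ h

/-- the lattice of integral elements of bounded pole order in an ideal -/
noncomputable def WV {g : ℕ} (hd : f.natDegree = 2 * g + 1)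
    (P : Ideal (Q M (f.map (algebraMap V M)))) (N : ℕ) : Submodule V (Q V f) :=
  Fm hd N ⊓ (IV P).restrictScalars V

theorem mem_WV {g : ℕ} {hd : f.natDegree = 2 * g + 1}
    {P : Ideal (Q M (f.map (algebraMap V M)))} {N : ℕ} {u : Q V f} :
    u ∈ WV hd P N ↔ u ∈ Fm hd N ∧ io M f u ∈ P := Iff.rfl

/-- reduction does not decrease the rank of a saturated lattice -/
theorem finrank_le_red {g : ℕ} (hf : f.Monic) (hd : f.natDegree = 2 * g + 1)
    (P : Ideal (Q M (f.map (algebraMap V M)))) (N : ℕ) :
    Module.finrank M (inter (natDegree_M (M := M) hd) P N) ≤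
      Module.finrank (IsLocalRing.ResidueField V)
        (Submodule.span (IsLocalRing.ResidueField V) (red f '' (WV hd P N : Set (Q V f)))) := by
  obtain ⟨ϖ, hϖ⟩ := IsDiscreteValuationRing.exists_irreducible V
  have hϖ0 : algebraMap V M ϖ ≠ 0 := by simpa using hϖ.ne_zero
  haveI hfinS : Module.Finite (IsLocalRing.ResidueField V)
      (Submodule.span (IsLocalRing.ResidueField V) (red f '' (WV hd P N : Set (Q V f)))) := by
    have hle : Submodule.span (IsLocalRing.ResidueField V) (red f '' (WV hd P N : Set (Q V f))) ≤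
        Fm (natDegree_k hf hd) N := by
      rw [Submodule.span_le]
      rintro _ ⟨u, hu, rfl⟩
      exact red_mem_Fm hf hd (mem_WV.1 hu).1
    exact Submodule.finiteDimensional_of_le hle
  obtain ⟨b, hb1, hb2, hb3⟩ := Submodule.exists_fun_fin_finrank_span_eq (IsLocalRing.ResidueField V)
    (red f '' (WV hd P N : Set (Q V f)))
  choose w hw hwb using hb1
  -- the lattice is spanned by the w_i
  have hfg : (WV hd P N).FG := by
    haveI : IsNoetherian V (Fm hd N) := isNoetherian_of_isNoetherianRing_of_finite V _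
    have h0 : (WV hd P N) = ((WV hd P N).comap (Fm hd N).subtype).map (Fm hd N).subtype := by
      rw [Submodule.map_comap_subtype]
      exact (inf_eq_right.2 inf_le_left).symm
    rw [h0]
    exact Submodule.FG.map _ (IsNoetherian.noetherian _)
  have h1 : WV hd P N ≤ Submodule.span V (Set.range w) := by
    apply Submodule.le_of_le_smul_of_le_jacobson_bot (I := IsLocalRing.maximalIdeal V) hfg
    · exact IsLocalRing.maximalIdeal_le_jacobson _
    · intro u hu
      have h2 : red f u ∈ Submodule.span (IsLocalRing.ResidueField V) (Set.range b) := by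
        rw [hb2]; exact Submodule.subset_span ⟨u, hu, rfl⟩
      rw [Submodule.mem_span_range_iff_exists_fun] at h2
      obtain ⟨c, hc⟩ := h2
      choose a ha using fun i => IsLocalRing.residue_surjective (R := V) (c i)
      have h3 : red f (u - ∑ i, a i • w i) = 0 := by
        rw [map_sub, ← hc, map_sum, sub_eq_zero]
        apply Finset.sum_congr rfl
        intro i _
        rw [red_smul, ha, hwb]
      obtain ⟨v, hv⟩ := (red_eq_zero hϖ _).1 h3
      have h4 : u - ∑ i, a i • w i ∈ WV hd P N := by
        apply Submodule.sub_mem _ hu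
        apply Submodule.sum_mem
        intro i _
        exact Submodule.smul_mem _ _ (hw i)
      have h5 : v ∈ WV hd P N := by
        rw [hv] at h4
        exact ⟨(smul_mem_Fm_iff hd hϖ.ne_zero).1 h4.1, (smul_mem_IV hϖ.ne_zero).1 h4.2⟩
      have h6 : u = ∑ i, a i • w i + ϖ • v := by rw [← hv]; abel
      rw [h6]
      apply Submodule.add_mem_sup
      · apply Submodule.sum_mem
        intro i _
        exact Submodule.smul_mem _ _ (Submodule.subset_span ⟨i, rfl⟩)
      · refine Submodule.smul_mem_smul ?_ h5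
        rw [hϖ.maximalIdeal_eq]
        exact Ideal.mem_span_singleton_self ϖ
  -- hence the generic fibre is spanned by the images
  have h2 : (inter (natDegree_M (M := M) hd) P N).map (Fm (natDegree_M (M := M) hd) N).subtype ≤
      Submodule.span M (Set.range (fun i => io M f (w i))) := by
    rintro _ ⟨⟨x, hx⟩, hx2, rfl⟩
    have hxP : x ∈ P := mem_inter.1 hx2
    change x ∈ _
    obtain ⟨n, u, hu⟩ := clear hϖ x
    have h3 : u ∈ WV hd P N := by
      constructor
      · change u ∈ Fm hd N
        rw [← io_mem_Fm (M := M), ← hu]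
        exact Submodule.smul_mem _ _ hx
      · change io M f u ∈ P
        rw [← hu]
        exact smul_mem_ideal _ hxP
    have h4 := h1 h3
    rw [Submodule.mem_span_range_iff_exists_fun] at h4
    obtain ⟨c, hc⟩ := h4
    have h5 : x = ((algebraMap V M ϖ) ^ n)⁻¹ • ∑ i, algebraMap V M (c i) • io M f (w i) := by
      have h7 : x = ((algebraMap V M ϖ) ^ n)⁻¹ • io M f u := by
        rw [← hu, smul_smul, inv_mul_cancel₀ (pow_ne_zero _ hϖ0), one_smul]
      rw [h7, ← hc, map_sum]
      simp only [io_smul]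
    rw [h5]
    apply Submodule.smul_mem
    apply Submodule.sum_mem
    intro i _
    exact Submodule.smul_mem _ _ (Submodule.subset_span ⟨i, rfl⟩)
  rw [← Submodule.finrank_map_subtype_eq]
  have h3 := finrank_range_le_card (R := M) (fun i => io M f (w i))
  rw [Fintype.card_fin, Set.finrank] at h3
  refine le_trans ?_ h3
  haveI : Module.Finite M (Submodule.span M (Set.range (fun i => io M f (w i)))) :=
    Module.Finite.span_of_finite M (Set.finite_range _)
  exact Submodule.finrank_mono h2

/-- an integral element of the ideal whose reduction has large pole order -/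
theorem exists_large {g : ℕ} (hf : f.Monic) (hd : f.natDegree = 2 * g + 1)
    {P : Ideal (Q M (f.map (algebraMap V M)))} (hP : P ≠ ⊥) :
    ∃ (N : ℕ) (u : Q V f), io M f u ∈ P ∧ colen P ≤ N ∧ (io M f u).norm.natDegree ≤ N ∧
      red f u ≠ 0 ∧ N + colen (Ib P) ≤ (red f u).norm.natDegree + colen P := by
  obtain ⟨w, hw, hwI⟩ := exists_poly (natDegree_k hf hd) (Ib_ne_bot hP)
  have hde := colen_Ib_le hf hd hP
  obtain ⟨N, hN⟩ : ∃ N, N = 2 * w.natDegree + 2 * g + colen P + 2 * g + 1 := ⟨_, rfl⟩
  by_contra hcon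
  push Not at hcon
  have hall : ∀ u ∈ WV hd P N, (red f u).norm.natDegree ≤ N + colen (Ib P) - colen P - 1 := by
    intro u hu
    by_cases h0 : red f u = 0
    · rw [h0]; simp
    · have := hcon N u (mem_WV.1 hu).2 (by omega) ?_ h0
      · omega
      · exact (io_mem_Fm (M := M) hd).2 (mem_WV.1 hu).1
  obtain ⟨T, hT⟩ : ∃ T, T = N + colen (Ib P) - colen P - 1 := ⟨_, rfl⟩
  have hsub : Submodule.span (IsLocalRing.ResidueField V) (red f '' (WV hd P N : Set (Q V f))) ≤
      (inter (natDegree_k hf hd) (Ib P) T).map (Fm (natDegree_k hf hd) T).subtype := by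
    rw [Submodule.span_le]
    rintro _ ⟨u, hu, rfl⟩
    have h1 : red f u ∈ Fm (natDegree_k hf hd) T := by
      rw [mem_Fm, hT]; exact hall u hu
    exact ⟨⟨red f u, h1⟩, mem_inter.2 (mem_Ib.2 ⟨u, (mem_WV.1 hu).2, rfl⟩), rfl⟩
  have h1 := finrank_le_red hf hd P N
  have h2 := Submodule.finrank_mono hsub
  rw [Submodule.finrank_map_subtype_eq] at h2
  have h3 := finrank_inter (natDegree_k hf hd) (I := Ib P) (s := T)
    (quo_surjective (natDegree_k hf hd) hw hwI (by omega))
  have h4 := le_finrank_inter (natDegree_M (M := M) hd) hP N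
  rw [finrank_Fm] at h3 h4
  omega

/-- every ideal class has a good representative -/
theorem exists_good {g : ℕ} (hf : f.Monic) (hd : f.natDegree = 2 * g + 1)
    [IsDedekindDomain (Q M (f.map (algebraMap V M)))]
    [IsDedekindDomain (Q (IsLocalRing.ResidueField V) (f.map (IsLocalRing.residue V)))]
    (c : ClassGroup (Q M (f.map (algebraMap V M)))) :
    ∃ (J : Ideal (Q M (f.map (algebraMap V M))))
      (hJ : J ∈ nonZeroDivisors (Ideal (Q M (f.map (algebraMap V M))))),
      ClassGroup.mk0 ⟨J, hJ⟩ = c ∧ Good J := by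
  obtain ⟨⟨P, hP⟩, hPc⟩ := ClassGroup.mk0_surjective (c⁻¹)
  have hP0 : P ≠ ⊥ := nonZeroDivisors.ne_zero hP
  obtain ⟨N, u, huP, hdN, huN, hu0, hlarge⟩ := exists_large hf hd hP0
  have hiu : io M f u ≠ 0 := by
    intro h
    apply hu0
    have : u = 0 := io_injective (M := M) f (by rw [h, map_zero])
    rw [this, map_zero]
  obtain ⟨J, hJ⟩ : P ∣ Ideal.span {io M f u} := by
    rw [Ideal.dvd_iff_le, Ideal.span_singleton_le_iff_mem]; exact huP
  have hspan : Ideal.span {io M f u} ≠ ⊥ := by simpa using hiu
  have hJ0 : J ≠ ⊥ := by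
    rintro rfl
    rw [Ideal.mul_bot] at hJ
    exact hspan hJ
  refine ⟨J, mem_nonZeroDivisors_of_ne_zero hJ0, ?_, ?_⟩
  · have h1 : ClassGroup.mk0 ⟨P, hP⟩ * ClassGroup.mk0 ⟨J, mem_nonZeroDivisors_of_ne_zero hJ0⟩ = 1 := by
      rw [← map_mul, ClassGroup.mk0_eq_one_iff]
      change (P * J).IsPrincipal
      rw [← hJ]
      exact ⟨⟨_, rfl⟩⟩
    rw [hPc] at h1
    exact (inv_mul_eq_one.1 h1).symm
  · apply good_of_colen hf hd hJ0
    have h1 := colen_mul (natDegree_M (M := M) hd) hP0 hJ0
    rw [← hJ, colen_span (natDegree_M (M := M) hd) hiu] at h1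
    have h2 := Ib_mul_le P J
    rw [← hJ, Ib_span hf hd hu0] at h2
    have h3 := colen_mono (natDegree_k hf hd) (mul_ne_zero (Ib_ne_bot hP0) (Ib_ne_bot hJ0)) h2
    rw [colen_span (natDegree_k hf hd) hu0,
      colen_mul (natDegree_k hf hd) (Ib_ne_bot hP0) (Ib_ne_bot hJ0)] at h3
    omega

end goodrep

end H58Q
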