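import Pool.Agent.Helper58_UB.GoodRep

/-!
Torsion of order prime to the residue characteristic injects under reduction.
-/

set_option linter.style.haveILetI false
set_option linter.unusedVariables false
set_option linter.unusedSectionVars false

open Polynomial

namespace H58Q

section inj

variable {V : Type*} [CommRing V] [IsDomain V] [IsDiscreteValuationRing V]
variable {M : Type*} [Field M] [Algebra V M] [IsFractionRing V M]
variable {f : V[X]}

theorem lift_Fm {g : ℕ} (hf : f.Monic) (hd : f.natDegree = 2 * g + 1) {m : ℕ}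
    {y : Q (IsLocalRing.ResidueField V) (f.map (IsLocalRing.residue V))}
    (hy : y ∈ Fm (natDegree_k hf hd) m) : ∃ u ∈ Fm hd m, red f u = y := by
  obtain ⟨v, hv⟩ := red_surjective f y
  rw [mem_Fm_coeff] at hy
  have h1 : ∀ (p : V[X]) (n : ℕ), (∀ i, n ≤ i → IsLocalRing.residue V (p.coeff i) = 0) →
      ∃ q : V[X], (∀ i, n ≤ i → q.coeff i = 0) ∧
        q.map (IsLocalRing.residue V) = p.map (IsLocalRing.residue V) := by
    intro p n hp
    refine ⟨pol (fun i : Fin n => p.coeff i), ?_, ?_⟩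
    · intro i hi
      rw [coeff_pol, dif_neg (by omega)]
    · ext i
      rw [coeff_map, coeff_map, coeff_pol]
      split_ifs with h
      · rfl
      · rw [map_zero, hp i (by omega)]
  obtain ⟨q1, hq1, hq1'⟩ := h1 v.re (m / 2 + 1) (by
    intro i hi
    have := hy.1 i (by omega)
    rw [← hv, Q.map_re, coeff_map] at this
    exact this)
  obtain ⟨q2, hq2, hq2'⟩ := h1 v.im ((m + 1 - 2 * g) / 2) (by
    intro i hi
    have := hy.2 i hi
    rw [← hv, Q.map_im, coeff_map] at this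
    exact this)
  refine ⟨⟨q1, q2⟩, ?_, ?_⟩
  · rw [mem_Fm_coeff]
    exact ⟨fun i hi => hq1 i (by omega), hq2⟩
  · rw [← hv]
    apply QuadraticAlgebra.ext
    · exact hq1'
    · exact hq2'

/-- units of the reduction are constants -/
theorem unit_const {k : Type*} [Field k] {f : k[X]} {g : ℕ} (hd : f.natDegree = 2 * g + 1)
    {u : Q k f} (hu : IsUnit u) : ∃ c : k, c ≠ 0 ∧ u = c • 1 := by
  have h1 : IsUnit u.norm := hu.map QuadraticAlgebra.norm
  have h2 : u.norm.natDegree = 0 := natDegree_eq_zero_of_isUnit h1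
  rw [← Nat.le_zero, natDegree_norm_le_iff hd] at h2
  have h3 : u.re.natDegree = 0 := by omega
  have h4 : u.im = 0 := by
    rcases h2.2 with h | h
    · exact h
    · omega
  obtain ⟨c, hc⟩ := natDegree_eq_zero.1 h3
  refine ⟨c, ?_, ?_⟩
  · rintro rfl
    have : u = 0 := QuadraticAlgebra.ext (by rw [← hc]; simp) h4
    rw [this] at hu
    haveI := isDomain hd
    exact not_isUnit_zero hu
  · apply QuadraticAlgebra.ext
    · rw [← hc, QuadraticAlgebra.re_smul, QuadraticAlgebra.re_one, smul_eq_C_mul, mul_one]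
    · rw [h4, QuadraticAlgebra.im_smul, QuadraticAlgebra.im_one, smul_zero]

theorem dvd_key {g : ℕ} (hf : f.Monic) (hd : f.natDegree = 2 * g + 1) {ϖ : V}
    (hϖ : Irreducible ϖ) {a : Q V f} (ha : red f a ≠ 0) (n : ℕ) (v b' : Q V f)
    (h : a * v = ϖ ^ n • b') : ∃ u, v = ϖ ^ n • u ∧ a * u = b' := by
  haveI : IsDomain (Q (IsLocalRing.ResidueField V) (f.map (IsLocalRing.residue V))) :=
    isDomain (natDegree_k hf hd)
  induction n generalizing v b' with
  | zero => exact ⟨v, by simp, by simpa using h⟩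
  | succ n ih =>
    have h1 : red f a * red f v = 0 := by
      rw [← map_mul, red_eq_zero hϖ]
      exact ⟨ϖ ^ n • b', by rw [h, smul_smul, ← pow_succ']⟩
    have h2 : red f v = 0 := (mul_eq_zero.1 h1).resolve_left ha
    obtain ⟨v', rfl⟩ := (red_eq_zero hϖ v).1 h2
    have h3 : a * v' = ϖ ^ n • b' := by
      apply smul_Q_cancel hϖ.ne_zero
      rw [← mul_smul_comm, h, smul_smul, ← pow_succ']
    obtain ⟨u, rfl, hu⟩ := ih v' b' h3
    exact ⟨u, by rw [smul_smul, ← pow_succ'], hu⟩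

theorem red_smul_pow {ϖ : V} (hϖ : Irreducible ϖ) {t : ℕ} (ht : 1 ≤ t) (u : Q V f) :
    red f (ϖ ^ t • u) = 0 := by
  rw [red_eq_zero hϖ]
  obtain ⟨t, rfl⟩ := Nat.exists_eq_succ_of_ne_zero (by omega : t ≠ 0)
  exact ⟨ϖ ^ t • u, by rw [smul_smul, ← pow_succ']⟩

/-- The approximation statement. -/
theorem approx {g : ℕ} (hf : f.Monic) (hd : f.natDegree = 2 * g + 1) {ϖ : V}
    (hϖ : Irreducible ϖ) {I : Ideal (Q M (f.map (algebraMap V M)))} {l : ℕ} (hl : 1 ≤ l)
    (hl0 : (l : IsLocalRing.ResidueField V) ≠ 0)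
    {u : Q V f} (hu : red f u ≠ 0) (hIl : I ^ l = Ideal.span {io M f u})
    {wb : Q (IsLocalRing.ResidueField V) (f.map (IsLocalRing.residue V))}
    (hwb : Ib I = Ideal.span {wb}) (hwb0 : wb ≠ 0) {d : ℕ} (hwd : wb.norm.natDegree = d)
    (hud : u ∈ Fm hd (l * d)) {e : V} (he : IsLocalRing.residue V e ≠ 0)
    (hwe : wb ^ l = red f (e • u)) (t : ℕ) (ht : 1 ≤ t) :
    ∃ w ∈ Fm hd d, ∃ i ∈ IV I, ∃ z δ : Q V f, w = i + ϖ ^ t • z ∧ red f w = wb ∧
      w ^ l = e • u + ϖ ^ t • δ := by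
  haveI : IsDomain (Q (IsLocalRing.ResidueField V) (f.map (IsLocalRing.residue V))) :=
    isDomain (natDegree_k hf hd)
  induction t, ht using Nat.le_induction with
  | base =>
    obtain ⟨i, hi, hir⟩ := mem_Ib.1 (hwb ▸ Ideal.mem_span_singleton_self wb : wb ∈ Ib I)
    obtain ⟨w, hw, hwr⟩ := lift_Fm hf hd (m := d) (y := wb) (by rw [mem_Fm, hwd])
    obtain ⟨z, hz⟩ := (red_eq_zero hϖ (w - i)).1 (by rw [map_sub, hwr, hir, sub_self])
    obtain ⟨δ, hδ⟩ := (red_eq_zero hϖ (w ^ l - e • u)).1 (by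
      rw [map_sub, map_pow, hwr, hwe, sub_self])
    refine ⟨w, hw, i, hi, z, δ, ?_, hwr, ?_⟩
    · rw [pow_one, ← hz]; abel
    · rw [pow_one, ← hδ]; abel
  | succ t ht ih =>
    obtain ⟨w, hw, i, hi, z, δ, hwi, hwr, hwl⟩ := ih
    -- i^l = u θ
    have hil : io M f (i ^ l) ∈ I ^ l := by
      rw [map_pow]
      exact Ideal.pow_mem_pow (mem_IV.1 hi) l
    rw [hIl, Ideal.mem_span_singleton'] at hil
    obtain ⟨y, hy⟩ := hil
    obtain ⟨θ, -, hθ⟩ := prim_dvd hf hd hu (x := y) (b := i ^ l) (by rw [mul_comm]; exact hy)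
    obtain ⟨κ, hκ⟩ := powAddExpansion i (ϖ ^ t • z) l
    have hexp : u * (θ - algebraMap V (Q V f) e) =
        ϖ ^ t • (δ - (l : Q V f) * i ^ (l - 1) * z - ϖ ^ t • (κ * z ^ 2)) := by
      have h1 : u * θ + (l : Q V f) * i ^ (l - 1) * (ϖ ^ t • z) + κ * (ϖ ^ t • z) ^ 2 =
          e • u + ϖ ^ t • δ := by
        rw [hθ, ← hκ, ← hwi, hwl]
      simp only [Algebra.smul_def] at h1 ⊢
      linear_combination h1
    obtain ⟨η, hη1, hη2⟩ := dvd_key hf hd hϖ hu t _ _ hexp
    have hir : red f i = wb := by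
      have : i = w - ϖ ^ t • z := by rw [hwi]; abel
      rw [this, map_sub, red_smul_pow hϖ ht, sub_zero, hwr]
    -- reduce
    have hred : red f u * red f η =
        red f δ - (l : IsLocalRing.ResidueField V) • (wb ^ (l - 1) * red f z) := by
      rw [← map_mul, hη2, map_sub, map_sub, map_mul, map_mul, map_pow, hir, map_natCast,
        red_smul_pow hϖ ht, sub_zero, Algebra.smul_def, map_natCast, mul_assoc]
    have hubar : red f u = (IsLocalRing.residue V e)⁻¹ • wb ^ l := by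
      rw [hwe, red_smul, smul_smul, inv_mul_cancel₀ he, one_smul]
    have hpow : wb ^ (l - 1) * wb = wb ^ l := by
      rw [← pow_succ]; congr 1; omega
    obtain ⟨sb, hsb⟩ : ∃ sb, sb = -((l : IsLocalRing.ResidueField V)⁻¹ •
      ((IsLocalRing.residue V e)⁻¹ • (wb * red f η))) - red f z := ⟨_, rfl⟩
    have hsb1 : (l : IsLocalRing.ResidueField V) • (wb ^ (l - 1) * sb) = - red f δ := by
      have h1 : red f δ = (IsLocalRing.residue V e)⁻¹ • (wb ^ l * red f η) +
          (l : IsLocalRing.ResidueField V) • (wb ^ (l - 1) * red f z) := by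
        rw [← smul_mul_assoc, ← hubar, hred]; abel
      rw [h1, hsb, mul_sub, mul_neg, smul_sub, smul_neg, mul_smul_comm, mul_smul_comm, smul_smul,
        mul_inv_cancel₀ hl0, one_smul, ← mul_assoc, hpow]
      abel
    have hδF : δ ∈ Fm hd (l * d) := by
      rw [← smul_mem_Fm_iff hd (pow_ne_zero t hϖ.ne_zero)]
      have h1 : ϖ ^ t • δ = w ^ l - e • u := by rw [hwl]; abel
      rw [h1]
      exact Submodule.sub_mem _ (pow_mem_Fm hd hw l) (Submodule.smul_mem _ _ hud)
    have hsbF : sb ∈ Fm (natDegree_k hf hd) d := by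
      by_cases hsb0 : sb = 0
      · rw [hsb0]; exact Submodule.zero_mem _
      · have h1 : wb ^ (l - 1) * sb ∈ Fm (natDegree_k hf hd) (l * d) := by
          have h2 : wb ^ (l - 1) * sb =
              (l : IsLocalRing.ResidueField V)⁻¹ • (- red f δ) := by
            rw [← hsb1, smul_smul, inv_mul_cancel₀ hl0, one_smul]
          rw [h2]
          exact Submodule.smul_mem _ _ (Submodule.neg_mem _ (red_mem_Fm hf hd hδF))
        rw [mem_Fm, natDegree_norm_mul (natDegree_k hf hd) (pow_ne_zero _ hwb0) hsb0,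
          natDegree_norm_pow, hwd] at h1
        rw [mem_Fm]
        obtain ⟨l', rfl⟩ := Nat.exists_eq_succ_of_ne_zero (by omega : l ≠ 0)
        simp only [Nat.succ_eq_add_one, Nat.add_sub_cancel] at h1
        have h3 : (l' + 1) * d = l' * d + d := by ring
        omega
    obtain ⟨s, hsF, hs⟩ := lift_Fm hf hd hsbF
    -- membership of z + s in IV + ϖ
    have hzs : red f (z + s) ∈ Ib I := by
      rw [hwb, Ideal.mem_span_singleton']
      refine ⟨-((l : IsLocalRing.ResidueField V)⁻¹ •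
        ((IsLocalRing.residue V e)⁻¹ • red f η)), ?_⟩
      rw [map_add, hs, hsb, neg_mul, smul_mul_assoc, smul_mul_assoc, mul_comm (red f η) wb]
      abel
    obtain ⟨i', hi', hi'r⟩ := mem_Ib.1 hzs
    obtain ⟨z', hz'⟩ := (red_eq_zero hϖ (z + s - i')).1 (by rw [map_sub, hi'r, sub_self])
    obtain ⟨κ', hκ'⟩ := powAddExpansion w (ϖ ^ t • s) l
    obtain ⟨δ', hδ'⟩ := (red_eq_zero hϖ (δ + (l : Q V f) * w ^ (l - 1) * s)).1 (by
      rw [map_add, map_mul, map_mul, map_pow, hwr, hs, map_natCast, mul_assoc]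
      have h1 : (l : Q (IsLocalRing.ResidueField V) (f.map (IsLocalRing.residue V))) *
          (wb ^ (l - 1) * sb) = (l : IsLocalRing.ResidueField V) • (wb ^ (l - 1) * sb) := by
        rw [Algebra.smul_def, map_natCast]
      rw [h1, hsb1, add_neg_cancel])
    refine ⟨w + ϖ ^ t • s, Submodule.add_mem _ hw (Submodule.smul_mem _ _ hsF),
      i + ϖ ^ t • i', ?_, z', δ' + ϖ ^ (t - 1) • (κ' * s ^ 2), ?_, ?_, ?_⟩
    · exact Ideal.add_mem _ hi (Submodule.smul_of_tower_mem _ _ hi')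
    · have h1 : z = i' + ϖ • z' - s := by rw [← hz']; abel
      rw [hwi, h1, pow_succ]
      simp only [Algebra.smul_def, map_mul]
      ring
    · rw [map_add, red_smul_pow hϖ ht, add_zero, hwr]
    · have h2 : ϖ ^ (t + 1) * ϖ ^ (t - 1) = (ϖ ^ t) ^ 2 := by
        rw [← pow_add, ← pow_mul]; congr 1; omega
      have h3 : (algebraMap V (Q V f) ϖ) ^ (t + 1) * (algebraMap V (Q V f) ϖ) ^ (t - 1) =
          ((algebraMap V (Q V f) ϖ) ^ t) ^ 2 := by
        rw [← map_pow, ← map_pow, ← map_pow, ← map_mul, h2, map_pow]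
      rw [hκ', hwl]
      simp only [Algebra.smul_def, map_pow] at hδ' h3 ⊢
      have h4 : (algebraMap V (Q V f) ϖ) ^ (t + 1) =
        (algebraMap V (Q V f) ϖ) ^ t * algebraMap V (Q V f) ϖ := pow_succ _ _
      linear_combination (algebraMap V (Q V f) ϖ) ^ t * hδ' - κ' * s ^ 2 * h3 - δ' * h4

/-- From approximations to an exact element. -/
theorem exact_of_approx {g : ℕ} (hf : f.Monic) (hd : f.natDegree = 2 * g + 1) {ϖ : V}
    (hϖ : Irreducible ϖ) {I : Ideal (Q M (f.map (algebraMap V M)))} (hG : Good I) {d : ℕ}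
    {wb : Q (IsLocalRing.ResidueField V) (f.map (IsLocalRing.residue V))} (hwb0 : wb ≠ 0)
    (h : ∀ t, 1 ≤ t → ∃ w ∈ Fm hd d, ∃ i ∈ IV I, ∃ z : Q V f, w = i + ϖ ^ t • z ∧
      red f w = wb) :
    ∃ w ∈ Fm hd d, w ≠ 0 ∧ w ∈ IV I := by
  by_contra hcon
  push Not at hcon
  haveI := finite_V hd hG
  let Φ : Fm hd d →ₗ[V] (Q V f ⧸ IV I) :=
    ((Ideal.Quotient.mkₐ V (IV I)).toLinearMap).comp (Fm hd d).subtype
  have hΦ : ∀ u, Φ u = Ideal.Quotient.mk (IV I) u.1 := fun u => rfl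
  obtain ⟨c0, hc0⟩ := Ideal.exists_pow_inf_eq_pow_smul (Ideal.span {ϖ}) (LinearMap.range Φ)
  obtain ⟨w, hw, i, hi, z, hwi, hwr⟩ := h (c0 + 1) (by omega)
  have h1 : Φ ⟨w, hw⟩ ∈ (Ideal.span {ϖ}) ^ (c0 + 1) • (⊤ : Submodule V (Q V f ⧸ IV I)) ⊓
      LinearMap.range Φ := by
    refine ⟨?_, ⟨_, rfl⟩⟩
    have h2 : Φ ⟨w, hw⟩ = ϖ ^ (c0 + 1) • Ideal.Quotient.mk (IV I) z := by
      rw [hΦ]
      change Ideal.Quotient.mk (IV I) w = _
      rw [hwi, map_add, Ideal.Quotient.eq_zero_iff_mem.2 hi, zero_add]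
      rfl
    rw [h2]
    refine Submodule.smul_mem_smul ?_ Submodule.mem_top
    exact Ideal.pow_mem_pow (Ideal.mem_span_singleton_self ϖ) _
  rw [hc0 (c0 + 1) (by omega)] at h1
  have h3 : (c0 + 1 - c0) = 1 := by omega
  rw [h3, pow_one, Submodule.ideal_span_singleton_smul] at h1
  obtain ⟨y, hy, hy2⟩ := h1
  obtain ⟨v, hv⟩ := hy.2
  have h4 : Ideal.Quotient.mk (IV I) (w - ϖ • v.1) = 0 := by
    rw [map_sub]
    have h5 : Ideal.Quotient.mk (IV I) (ϖ • v.1) = ϖ • Φ v := rfl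
    rw [h5, hv]
    have h6 : Ideal.Quotient.mk (IV I) w = Φ ⟨w, hw⟩ := rfl
    rw [h6, ← hy2]
    exact sub_self _
  rw [Ideal.Quotient.eq_zero_iff_mem] at h4
  have h5 : w - ϖ • v.1 ∈ Fm hd d := Submodule.sub_mem _ hw (Submodule.smul_mem _ _ v.2)
  have h6 : w - ϖ • v.1 = 0 := by
    by_contra h7
    exact hcon _ h5 h7 h4
  apply hwb0
  rw [← hwr, sub_eq_zero.1 h6, red_eq_zero hϖ]
  exact ⟨v.1, rfl⟩

/-- Injectivity of the reduction on the prime-to-residue-characteristic torsion. -/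
theorem principal_of_red {g : ℕ} (hf : f.Monic) (hd : f.natDegree = 2 * g + 1)
    [IsDedekindDomain (Q M (f.map (algebraMap V M)))]
    [IsDedekindDomain (Q (IsLocalRing.ResidueField V) (f.map (IsLocalRing.residue V)))]
    {I : Ideal (Q M (f.map (algebraMap V M)))} (hI : I ≠ ⊥) (hG : Good I) {l : ℕ} (hl : 1 ≤ l)
    (hl0 : (l : IsLocalRing.ResidueField V) ≠ 0)
    (hIl : (I ^ l).IsPrincipal) (hIb : (Ib I).IsPrincipal) : I.IsPrincipal := by
  obtain ⟨ϖ, hϖ⟩ := IsDiscreteValuationRing.exists_irreducible V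
  haveI hdM : IsDomain (Q M (f.map (algebraMap V M))) := isDomain (natDegree_M hd)
  obtain ⟨⟨x, hx⟩⟩ := hIl
  obtain ⟨⟨wb, hwb⟩⟩ := hIb
  change I ^ l = Ideal.span {x} at hx
  change Ib I = Ideal.span {wb} at hwb
  have hx0 : x ≠ 0 := by
    rintro rfl
    rw [Ideal.span_singleton_eq_bot.2 rfl] at hx
    exact pow_ne_zero l hI hx
  have hwb0 : wb ≠ 0 := by
    rintro rfl
    rw [Ideal.span_singleton_eq_bot.2 rfl] at hwb
    exact Ib_ne_bot hI hwb
  obtain ⟨c, u, hc, hcu, hu⟩ := exists_prim hx0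
  have hspan : Ideal.span {x} = Ideal.span {io M f u} := by
    rw [← hcu]
    apply le_antisymm
    · rw [Ideal.span_singleton_le_iff_mem]
      exact smul_mem_ideal _ (Ideal.mem_span_singleton_self _)
    · rw [Ideal.span_singleton_le_iff_mem]
      have := smul_mem_ideal c⁻¹ (Ideal.mem_span_singleton_self (c • io M f u))
      rwa [smul_smul, inv_mul_cancel₀ hc, one_smul] at this
  rw [hspan] at hx
  have hiu : io M f u ≠ 0 := by
    intro h
    apply hx0
    rw [← hcu, h, smul_zero]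
  have h1 : Ideal.span {red f u} = Ideal.span {wb ^ l} := by
    rw [← Ib_span (M := M) hf hd hu, ← hx, Ib_pow hf hd hI hG, hwb, Ideal.span_singleton_pow]
  rw [Ideal.span_singleton_eq_span_singleton] at h1
  obtain ⟨η, hη⟩ := h1
  obtain ⟨cb, hcb, hηc⟩ := unit_const (natDegree_k hf hd) η.isUnit
  obtain ⟨e, he⟩ := IsLocalRing.residue_surjective (R := V) cb
  have hwe : wb ^ l = red f (e • u) := by
    rw [← hη, hηc, red_smul, he, mul_smul_comm, mul_one]
  have hcol : colen I = wb.norm.natDegree := by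
    rw [← colen_eq_of_good hf hd hI hG, hwb, colen_span (natDegree_k hf hd) hwb0]
  have hud : u ∈ Fm hd (l * wb.norm.natDegree) := by
    rw [← io_mem_Fm (M := M), mem_Fm, ← colen_span (natDegree_M (M := M) hd) hiu, ← hx,
      colen_pow (natDegree_M (M := M) hd) hI, hcol]
  obtain ⟨w, hwF, hw0, hwI⟩ := exact_of_approx hf hd hϖ hG (d := wb.norm.natDegree) hwb0
    (fun t ht => by
      obtain ⟨w, hw, i, hi, z, δ, h1, h2, h3⟩ := approx hf hd hϖ hl hl0 hu hx hwb hwb0 rfl hud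
        (e := e) (by rw [he]; exact hcb) hwe t ht
      exact ⟨w, hw, i, hi, z, h1, h2⟩)
  have hiw : io M f w ≠ 0 := by
    intro h
    apply hw0
    exact io_injective (M := M) f (by rw [h, map_zero])
  have hfin := eq_span (natDegree_M (M := M) hd) (mem_IV.1 hwI) hiw (by
    rw [hcol]
    exact (io_mem_Fm (M := M) hd).2 hwF)
  exact ⟨⟨_, hfin⟩⟩

end inj

end H58Q
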