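import Pool.Agent.Helper58_UB.ClassNumber

/-!
Reduction of `V[x][y]/(y^2 - f)` for a discrete valuation ring `V`.
-/

set_option linter.style.haveILetI false
set_option linter.unusedVariables false
set_option linter.unusedSectionVars false

open Polynomial

namespace H58Q

section lat

variable {V : Type*} [CommRing V] [IsDomain V] [IsDiscreteValuationRing V]
variable {M : Type*} [Field M] [Algebra V M] [IsFractionRing V M]

/-- inclusion of the integral model into the generic fibre -/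
noncomputable abbrev io (M : Type*) [Field M] [Algebra V M] (f : V[X]) :
    Q V f →+* Q M (f.map (algebraMap V M)) := Q.map (algebraMap V M) f

/-- reduction -/
noncomputable abbrev red (f : V[X]) :
    Q V f →+* Q (IsLocalRing.ResidueField V) (f.map (IsLocalRing.residue V)) :=
  Q.map (IsLocalRing.residue V) f

theorem io_injective (f : V[X]) : Function.Injective (io M f) :=
  Q.map_injective _ _ (IsFractionRing.injective V M)

theorem red_surjective (f : V[X]) : Function.Surjective (red f) :=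
  Q.map_surjective _ _ IsLocalRing.residue_surjective

theorem map_residue_eq_zero {ϖ : V} (hϖ : Irreducible ϖ) (p : V[X]) :
    p.map (IsLocalRing.residue V) = 0 ↔ ∃ q, p = ϖ • q := by
  constructor
  · intro h
    have h1 : C ϖ ∣ p := by
      rw [C_dvd_iff_dvd_coeff]
      intro i
      have h2 := congrArg (fun q => q.coeff i) h
      simp only [coeff_map, coeff_zero, IsLocalRing.residue_eq_zero_iff] at h2
      rw [hϖ.maximalIdeal_eq, Ideal.mem_span_singleton] at h2
      exact h2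
    obtain ⟨q, rfl⟩ := h1
    exact ⟨q, by rw [smul_eq_C_mul]⟩
  · rintro ⟨q, rfl⟩
    rw [smul_eq_C_mul, Polynomial.map_mul, map_C]
    have : IsLocalRing.residue V ϖ = 0 := by
      rw [IsLocalRing.residue_eq_zero_iff, hϖ.maximalIdeal_eq]
      exact Ideal.mem_span_singleton_self ϖ
    rw [this]; simp

theorem red_eq_zero {ϖ : V} (hϖ : Irreducible ϖ) {f : V[X]} (u : Q V f) :
    red f u = 0 ↔ ∃ v, u = ϖ • v := by
  constructor
  · intro h
    have h1 := congrArg QuadraticAlgebra.re h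
    have h2 := congrArg QuadraticAlgebra.im h
    obtain ⟨p, hp⟩ := (map_residue_eq_zero hϖ _).1 h1
    obtain ⟨q, hq⟩ := (map_residue_eq_zero hϖ _).1 h2
    exact ⟨⟨p, q⟩, QuadraticAlgebra.ext hp hq⟩
  · rintro ⟨v, rfl⟩
    apply QuadraticAlgebra.ext
    · exact (map_residue_eq_zero hϖ _).2 ⟨v.re, rfl⟩
    · exact (map_residue_eq_zero hϖ _).2 ⟨v.im, rfl⟩

theorem smul_Q_cancel {c : V} (hc : c ≠ 0) {f : V[X]} {u v : Q V f} (h : c • u = c • v) :
    u = v := by
  have h1 := congrArg QuadraticAlgebra.re h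
  have h2 := congrArg QuadraticAlgebra.im h
  simp only [QuadraticAlgebra.re_smul, QuadraticAlgebra.im_smul] at h1 h2
  exact QuadraticAlgebra.ext (smul_right_injective _ hc h1) (smul_right_injective _ hc h2)

theorem io_smul (c : V) {f : V[X]} (u : Q V f) :
    io M f (c • u) = algebraMap V M c • io M f u := by
  ext1
  · change (c • u.re).map (algebraMap V M) = algebraMap V M c • (u.re.map (algebraMap V M))
    rw [smul_eq_C_mul, Polynomial.map_mul, map_C, smul_eq_C_mul]
  · change (c • u.im).map (algebraMap V M) = algebraMap V M c • (u.im.map (algebraMap V M))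
    rw [smul_eq_C_mul, Polynomial.map_mul, map_C, smul_eq_C_mul]

theorem red_smul (c : V) {f : V[X]} (u : Q V f) :
    red f (c • u) = IsLocalRing.residue V c • red f u := by
  ext1
  · simp [Q.map, smul_eq_C_mul]
  · simp [Q.map, smul_eq_C_mul]

/-- nonzero elements are not infinitely divisible -/
theorem exists_primitive {ϖ : V} (hϖ : Irreducible ϖ) {f : V[X]} {u : Q V f} (hu : u ≠ 0) :
    ∃ (m : ℕ) (v : Q V f), u = ϖ ^ m • v ∧ red f v ≠ 0 := by
  classical
  have hex : ∃ m : ℕ, ¬ ∃ v : Q V f, u = ϖ ^ m • v := by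
    by_contra hall
    push Not at hall
    apply hu
    have hcoef : ∀ c : V, (∀ m : ℕ, ϖ ^ m ∣ c) → c = 0 := by
      intro c hc
      by_contra hc0
      obtain ⟨n, hn⟩ := IsDiscreteValuationRing.associated_pow_irreducible hc0 hϖ
      have h1 := hc (n + 1)
      have h2 : ϖ ^ (n + 1) ∣ ϖ ^ n := h1.trans hn.dvd
      exact absurd ((pow_dvd_pow_iff hϖ.ne_zero hϖ.not_isUnit).1 h2) (by omega)
    ext i
    · apply hcoef
      intro m
      obtain ⟨v, hv⟩ := hall m
      rw [hv]
      exact ⟨v.re.coeff i, by simp⟩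
    · apply hcoef
      intro m
      obtain ⟨v, hv⟩ := hall m
      rw [hv]
      exact ⟨v.im.coeff i, by simp⟩
  have h0 : Nat.find hex ≠ 0 := by
    intro h
    have := Nat.find_spec hex
    rw [h] at this
    exact this ⟨u, by simp⟩
  obtain ⟨m, hm⟩ := Nat.exists_eq_succ_of_ne_zero h0
  have h1 := Nat.find_min hex (m := m) (by omega)
  push Not at h1
  obtain ⟨v, hv⟩ := h1
  refine ⟨m, v, hv, ?_⟩
  intro hv0
  obtain ⟨v', rfl⟩ := (red_eq_zero hϖ v).1 hv0
  have := Nat.find_spec hex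
  rw [hm] at this
  apply this
  exact ⟨v', by rw [hv, smul_smul, ← pow_succ]⟩

theorem clear_poly {ϖ : V} (hϖ : Irreducible ϖ) (p : M[X]) :
    ∃ (n : ℕ) (q : V[X]), (algebraMap V M ϖ) ^ n • p = q.map (algebraMap V M) := by
  obtain ⟨b, hb, hb2⟩ := IsLocalization.integerNormalization_spec (nonZeroDivisors V) p
  have hb0 : b ≠ 0 := nonZeroDivisors.ne_zero hb
  obtain ⟨n, hn⟩ := IsDiscreteValuationRing.associated_pow_irreducible hb0 hϖ
  obtain ⟨v, hv⟩ := hn
  refine ⟨n, (v : V) • IsLocalization.integerNormalization (nonZeroDivisors V) p, ?_⟩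
  rw [← map_pow, ← hv, smul_eq_C_mul, smul_eq_C_mul, Polynomial.map_mul, hb2, map_C]
  rw [← algebraMap_smul M (b : V) p, smul_eq_C_mul, ← mul_assoc, ← C_mul,
    ← map_mul, mul_comm (v : V) b]

theorem clear {ϖ : V} (hϖ : Irreducible ϖ) {f : V[X]} (x : Q M (f.map (algebraMap V M))) :
    ∃ (n : ℕ) (u : Q V f), (algebraMap V M ϖ) ^ n • x = io M f u := by
  obtain ⟨n1, p, hp⟩ := clear_poly hϖ x.re
  obtain ⟨n2, q, hq⟩ := clear_poly hϖ x.im
  refine ⟨n1 + n2, ⟨ϖ ^ n2 • p, ϖ ^ n1 • q⟩, ?_⟩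
  ext1
  · simp only [QuadraticAlgebra.re_smul, Q.map_re]
    rw [smul_eq_C_mul (ϖ ^ n2), Polynomial.map_mul, ← hp, map_C, map_pow, smul_eq_C_mul,
      smul_eq_C_mul, ← mul_assoc, ← C_mul, ← pow_add, add_comm]
  · simp only [QuadraticAlgebra.im_smul, Q.map_im]
    rw [smul_eq_C_mul (ϖ ^ n1), Polynomial.map_mul, ← hq, map_C, map_pow, smul_eq_C_mul,
      smul_eq_C_mul, ← mul_assoc, ← C_mul, ← pow_add]

theorem exists_prim {f : V[X]} {x : Q M (f.map (algebraMap V M))} (hx : x ≠ 0) :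
    ∃ (c : M) (u : Q V f), c ≠ 0 ∧ c • io M f u = x ∧ red f u ≠ 0 := by
  obtain ⟨ϖ, hϖ⟩ := IsDiscreteValuationRing.exists_irreducible V
  obtain ⟨n, u, hu⟩ := clear hϖ x
  have hϖ0 : algebraMap V M ϖ ≠ 0 := by
    simpa using hϖ.ne_zero
  have hu0 : u ≠ 0 := by
    rintro rfl
    rw [map_zero] at hu
    have := smul_eq_zero.1 hu
    rcases this with h | h
    · exact pow_ne_zero n hϖ0 h
    · exact hx h
  obtain ⟨m, v, rfl, hv⟩ := exists_primitive hϖ hu0
  refine ⟨((algebraMap V M ϖ) ^ n)⁻¹ * (algebraMap V M ϖ) ^ m, v, ?_, ?_, hv⟩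
  · exact mul_ne_zero (inv_ne_zero (pow_ne_zero _ hϖ0)) (pow_ne_zero _ hϖ0)
  · rw [mul_smul, ← map_pow (algebraMap V M) ϖ m, ← io_smul, ← hu, smul_smul,
      inv_mul_cancel₀ (pow_ne_zero _ hϖ0), one_smul]

/-- Division by primitive elements. -/
theorem prim_dvd {f : V[X]} {g : ℕ} (hf : f.Monic) (hd : f.natDegree = 2 * g + 1)
    {a b : Q V f} (ha : red f a ≠ 0)
    {x : Q M (f.map (algebraMap V M))} (h : io M f a * x = io M f b) :
    ∃ u, io M f u = x ∧ a * u = b := by
  haveI : IsDomain (Q (IsLocalRing.ResidueField V) (f.map (IsLocalRing.residue V))) :=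
    isDomain (g := g) (by rw [hf.natDegree_map, hd])
  obtain ⟨ϖ, hϖ⟩ := IsDiscreteValuationRing.exists_irreducible V
  have hϖ0 : algebraMap V M ϖ ≠ 0 := by
    simpa using hϖ.ne_zero
  have key : ∀ (n : ℕ) (v b' : Q V f), a * v = ϖ ^ n • b' → ∃ u, v = ϖ ^ n • u ∧ a * u = b' := by
    intro n
    induction n with
    | zero => intro v b' hv; exact ⟨v, by simp, by simpa using hv⟩
    | succ n ih =>
      intro v b' hv
      have h1 : red f a * red f v = 0 := by
        rw [← map_mul, red_eq_zero hϖ]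
        exact ⟨ϖ ^ n • b', by rw [hv, smul_smul, ← pow_succ']⟩
      have h2 : red f v = 0 := (mul_eq_zero.1 h1).resolve_left ha
      obtain ⟨v', rfl⟩ := (red_eq_zero hϖ v).1 h2
      have h3 : a * v' = ϖ ^ n • b' := by
        apply smul_Q_cancel hϖ.ne_zero
        rw [← mul_smul_comm, hv, smul_smul, ← pow_succ']
      obtain ⟨u, rfl, hu⟩ := ih v' b' h3
      exact ⟨u, by rw [smul_smul, ← pow_succ'], hu⟩
  obtain ⟨n, v, hv⟩ := clear hϖ x
  have h1 : a * v = ϖ ^ n • b := by
    apply io_injective (M := M) f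
    rw [map_mul, ← hv, mul_smul_comm, h, ← map_pow, ← io_smul]
  obtain ⟨u, rfl, hu⟩ := key n v b h1
  refine ⟨u, ?_, hu⟩
  rw [io_smul, map_pow] at hv
  exact (smul_right_injective _ (pow_ne_zero n hϖ0) hv).symm

end lat

end H58Q
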