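import Pool.Agent.Helper58_UB.Lat

/-!
Ideals of the generic fibre and their reductions.
-/

set_option linter.style.haveILetI false
set_option linter.unusedVariables false
set_option linter.unusedSectionVars false

open Polynomial

namespace H58Q

section lat2

variable {V : Type*} [CommRing V] [IsDomain V] [IsDiscreteValuationRing V]
variable {M : Type*} [Field M] [Algebra V M] [IsFractionRing V M]
variable {f : V[X]}

/-- the contraction to the integral model -/
noncomputable def IV (I : Ideal (Q M (f.map (algebraMap V M)))) : Ideal (Q V f) :=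
  I.comap (io M f)

/-- the reduction of an ideal of the generic fibre -/
noncomputable def Ib (I : Ideal (Q M (f.map (algebraMap V M)))) :
    Ideal (Q (IsLocalRing.ResidueField V) (f.map (IsLocalRing.residue V))) :=
  (IV I).map (red f)

theorem mem_IV {I : Ideal (Q M (f.map (algebraMap V M)))} {u : Q V f} :
    u ∈ IV I ↔ io M f u ∈ I := Iff.rfl

theorem mem_Ib {I : Ideal (Q M (f.map (algebraMap V M)))}
    {y : Q (IsLocalRing.ResidueField V) (f.map (IsLocalRing.residue V))} :
    y ∈ Ib I ↔ ∃ u, io M f u ∈ I ∧ red f u = y := by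
  rw [Ib, Ideal.mem_map_iff_of_surjective _ (red_surjective f)]
  rfl

theorem smul_mem_ideal {g : M[X]} {I : Ideal (Q M g)} (c : M) {x : Q M g} (hx : x ∈ I) :
    c • x ∈ I := Submodule.smul_of_tower_mem I c hx

theorem smul_mem_IV {c : V} (hc : c ≠ 0) {I : Ideal (Q M (f.map (algebraMap V M)))} {u : Q V f} :
    c • u ∈ IV I ↔ u ∈ IV I := by
  rw [mem_IV, mem_IV, io_smul]
  have hc' : algebraMap V M c ≠ 0 := by simpa using hc
  constructor
  · intro h
    have := smul_mem_ideal (algebraMap V M c)⁻¹ h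
    rwa [smul_smul, inv_mul_cancel₀ hc', one_smul] at this
  · intro h
    exact smul_mem_ideal _ h

theorem Ib_ne_bot {I : Ideal (Q M (f.map (algebraMap V M)))} (hI : I ≠ ⊥) : Ib I ≠ ⊥ := by
  obtain ⟨x, hx, hx0⟩ := Submodule.exists_mem_ne_zero_of_ne_bot hI
  obtain ⟨c, u, hc, rfl, hu⟩ := exists_prim hx0
  intro h
  apply hu
  rw [← Ideal.mem_bot, ← h, mem_Ib]
  refine ⟨u, ?_, rfl⟩
  have := smul_mem_ideal c⁻¹ hx
  rwa [smul_smul, inv_mul_cancel₀ hc, one_smul] at this

theorem scale {r : ℕ} {c : Fin r → M} (hc : c ≠ 0) :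
    ∃ (i0 : Fin r) (c' : Fin r → V), c i0 ≠ 0 ∧ c' i0 = 1 ∧
      ∀ i, c i = c i0 * algebraMap V M (c' i) := by
  classical
  obtain ⟨⟨b, hb⟩, hb2⟩ := IsLocalization.exist_integer_multiples_of_finite
    (nonZeroDivisors V) c
  have hb0 : b ≠ 0 := nonZeroDivisors.ne_zero hb
  have hb0' : algebraMap V M b ≠ 0 := by simpa using hb0
  choose d hd using hb2
  have hd' : ∀ i, algebraMap V M (d i) = algebraMap V M b * c i := by
    intro i
    rw [hd i, Algebra.smul_def]
  obtain ⟨j, hj⟩ : ∃ j, c j ≠ 0 := by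
    by_contra h
    push Not at h
    exact hc (funext h)
  obtain ⟨i0, -, hi0⟩ := Finset.exists_min_image Finset.univ
    (fun i => IsDiscreteValuationRing.addVal V (d i)) ⟨j, Finset.mem_univ j⟩
  have hdvd : ∀ i, d i0 ∣ d i := fun i =>
    IsDiscreteValuationRing.addVal_le_iff_dvd.1 (hi0 i (Finset.mem_univ i))
  have hci0 : c i0 ≠ 0 := by
    intro h
    have h1 : d i0 = 0 := by
      have := hd' i0
      rw [h, mul_zero] at this
      simpa using this
    have h2 : d j = 0 := by
      have := hdvd j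
      rw [h1, zero_dvd_iff] at this
      exact this
    have h3 := hd' j
    rw [h2, map_zero] at h3
    exact hj ((mul_eq_zero.1 h3.symm).resolve_left hb0')
  have hdi0 : d i0 ≠ 0 := by
    intro h
    have := hd' i0
    rw [h, map_zero] at this
    exact hci0 ((mul_eq_zero.1 this.symm).resolve_left hb0')
  choose e he using hdvd
  refine ⟨i0, e, hci0, ?_, ?_⟩
  · have := he i0
    have h2 : d i0 * 1 = d i0 * e i0 := by rw [mul_one]; exact this
    exact (mul_left_cancel₀ hdi0 h2).symm
  · intro i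
    have h1 := hd' i
    have h2 := hd' i0
    have h3 := congrArg (algebraMap V M) (he i)
    rw [map_mul, h1, h2] at h3
    apply mul_left_cancel₀ hb0'
    rw [h3]; ring

theorem indep {I : Ideal (Q M (f.map (algebraMap V M)))} {r : ℕ} (e : Fin r → Q V f)
    (h : LinearIndependent (IsLocalRing.ResidueField V)
      (fun i => Ideal.Quotient.mk (Ib I) (red f (e i)))) :
    LinearIndependent M (fun i => Ideal.Quotient.mk I (io M f (e i))) := by
  rw [Fintype.linearIndependent_iff]
  intro c hc
  by_contra hne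
  have hc0 : c ≠ 0 := by
    rintro rfl
    exact hne (fun i => rfl)
  obtain ⟨i0, c', hi0, hi1, hcc⟩ := scale (V := V) hc0
  have h1 : io M f (∑ i, c' i • e i) ∈ I := by
    rw [← Ideal.Quotient.eq_zero_iff_mem, map_sum, map_sum]
    have h2 : ∀ i, Ideal.Quotient.mk I (io M f (c' i • e i)) =
        (c i0)⁻¹ • (c i • Ideal.Quotient.mk I (io M f (e i))) := by
      intro i
      rw [io_smul, smul_smul, hcc i, ← mul_assoc, inv_mul_cancel₀ hi0, one_mul]
      rfl
    rw [Finset.sum_congr rfl (fun i _ => h2 i), ← Finset.smul_sum, hc, smul_zero]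
  have h3 : ∑ i, IsLocalRing.residue V (c' i) • Ideal.Quotient.mk (Ib I) (red f (e i)) = 0 := by
    have h4 : red f (∑ i, c' i • e i) ∈ Ib I := mem_Ib.2 ⟨_, h1, rfl⟩
    rw [← Ideal.Quotient.eq_zero_iff_mem, map_sum, map_sum] at h4
    rw [← h4]
    apply Finset.sum_congr rfl
    intro i _
    rw [red_smul]
    rfl
  have h5 := Fintype.linearIndependent_iff.1 h _ h3 i0
  rw [hi1, map_one] at h5
  exact one_ne_zero h5

end lat2

end H58Q
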