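import Pool.Agent.Helper58_UB.Lat2

/-!
Good ideals.
-/

set_option linter.style.haveILetI false
set_option linter.unusedVariables false
set_option linter.unusedSectionVars false

open Polynomial

namespace H58Q

section lat3

variable {V : Type*} [CommRing V] [IsDomain V] [IsDiscreteValuationRing V]
variable {M : Type*} [Field M] [Algebra V M] [IsFractionRing V M]
variable {f : V[X]}

theorem natDegree_M {g : ℕ} (hd : f.natDegree = 2 * g + 1) :
    (f.map (algebraMap V M)).natDegree = 2 * g + 1 := by
  rw [natDegree_map_eq_of_injective (IsFractionRing.injective V M), hd]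

theorem natDegree_k {g : ℕ} (hf : f.Monic) (hd : f.natDegree = 2 * g + 1) :
    (f.map (IsLocalRing.residue V)).natDegree = 2 * g + 1 := by
  rw [hf.natDegree_map, hd]

/-- lift of a basis of the reduction -/
theorem exists_lift {g : ℕ} (hf : f.Monic) (hd : f.natDegree = 2 * g + 1)
    {I : Ideal (Q M (f.map (algebraMap V M)))} (hI : I ≠ ⊥) :
    ∃ e : Fin (colen (Ib I)) → Q V f,
      LinearIndependent (IsLocalRing.ResidueField V)
        (fun i => Ideal.Quotient.mk (Ib I) (red f (e i))) ∧
      Submodule.span (IsLocalRing.ResidueField V)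
        (Set.range (fun i => Ideal.Quotient.mk (Ib I) (red f (e i)))) = ⊤ := by
  haveI := finite_quot (natDegree_k hf hd) (Ib_ne_bot hI)
  let b : Module.Basis (Fin (colen (Ib I))) (IsLocalRing.ResidueField V)
    (Q (IsLocalRing.ResidueField V) (f.map (IsLocalRing.residue V)) ⧸ Ib I) :=
    Module.finBasisOfFinrankEq (IsLocalRing.ResidueField V)
    (Q (IsLocalRing.ResidueField V) (f.map (IsLocalRing.residue V)) ⧸ Ib I) rfl
  have h1 : ∀ i, ∃ e : Q V f, Ideal.Quotient.mk (Ib I) (red f e) = b i := by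
    intro i
    obtain ⟨y, hy⟩ := Ideal.Quotient.mk_surjective (b i)
    obtain ⟨e, rfl⟩ := red_surjective f y
    exact ⟨e, hy⟩
  choose e he using h1
  refine ⟨e, ?_, ?_⟩
  · have : (fun i => Ideal.Quotient.mk (Ib I) (red f (e i))) = b := funext he
    rw [this]; exact b.linearIndependent
  · have : (fun i => Ideal.Quotient.mk (Ib I) (red f (e i))) = b := funext he
    rw [this]; exact b.span_eq

theorem colen_Ib_le {g : ℕ} (hf : f.Monic) (hd : f.natDegree = 2 * g + 1)
    {I : Ideal (Q M (f.map (algebraMap V M)))} (hI : I ≠ ⊥) : colen (Ib I) ≤ colen I := by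
  haveI := finite_quot (natDegree_M (M := M) hd) hI
  obtain ⟨e, he, -⟩ := exists_lift hf hd hI
  have h := (indep e he).fintype_card_le_finrank
  rwa [Fintype.card_fin] at h

/-- Every element of the integral model is congruent to a combination of lifts of a basis,
modulo the ideal and the uniformizer. -/
theorem exists_comb {ϖ : V} (hϖ : Irreducible ϖ)
    {I : Ideal (Q M (f.map (algebraMap V M)))} {r : ℕ} (e : Fin r → Q V f)
    (he : Submodule.span (IsLocalRing.ResidueField V)
        (Set.range (fun i => Ideal.Quotient.mk (Ib I) (red f (e i)))) = ⊤) (u : Q V f) :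
    ∃ (a : Fin r → V) (v w : Q V f), v ∈ IV I ∧ u = ∑ i, a i • e i + v + ϖ • w := by
  have h1 : Ideal.Quotient.mk (Ib I) (red f u) ∈ Submodule.span (IsLocalRing.ResidueField V)
        (Set.range (fun i => Ideal.Quotient.mk (Ib I) (red f (e i)))) := by rw [he]; trivial
  rw [Submodule.mem_span_range_iff_exists_fun] at h1
  obtain ⟨c, hc⟩ := h1
  choose a ha using fun i => IsLocalRing.residue_surjective (R := V) (c i)
  have h2 : red f (u - ∑ i, a i • e i) ∈ Ib I := by
    rw [← Ideal.Quotient.eq_zero_iff_mem, map_sub, map_sub, ← hc, map_sum, map_sum,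
      sub_eq_zero]
    apply Finset.sum_congr rfl
    intro i _
    rw [red_smul, ha]
    rfl
  obtain ⟨v, hv, hv2⟩ := mem_Ib.1 h2
  have h3 : red f (u - ∑ i, a i • e i - v) = 0 := by
    rw [map_sub, hv2, sub_self]
  obtain ⟨w, hw⟩ := (red_eq_zero hϖ _).1 h3
  refine ⟨a, v, w, hv, ?_⟩
  rw [← hw]; abel

/-- Good ideals: those containing a monic polynomial in `x` with integral coefficients. -/
def Good (I : Ideal (Q M (f.map (algebraMap V M)))) : Prop :=
  ∃ w : V[X], w.Monic ∧ algebraMap V[X] (Q V f) w ∈ IV I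

theorem exists_repV {g : ℕ} (hd : f.natDegree = 2 * g + 1) {J : Ideal (Q V f)}
    {w : V[X]} (hw : w.Monic) (hwI : algebraMap V[X] (Q V f) w ∈ J) (u : Q V f) {s : ℕ}
    (hs : 2 * w.natDegree + 2 * g ≤ s) :
    ∃ v ∈ Fm hd s, u - v ∈ J := by
  refine ⟨⟨u.re %ₘ w, u.im %ₘ w⟩, ?_, ?_⟩
  · rw [mem_Fm_coeff]
    constructor
    · intro i hi
      apply coeff_eq_zero_of_degree_lt
      refine lt_of_lt_of_le (degree_modByMonic_lt _ hw) ?_
      rw [degree_eq_natDegree hw.ne_zero]
      exact_mod_cast (by omega)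
    · intro i hi
      apply coeff_eq_zero_of_degree_lt
      refine lt_of_lt_of_le (degree_modByMonic_lt _ hw) ?_
      rw [degree_eq_natDegree hw.ne_zero]
      exact_mod_cast (by omega)
  · have : u - ⟨u.re %ₘ w, u.im %ₘ w⟩ = algebraMap V[X] (Q V f) w * ⟨u.re /ₘ w, u.im /ₘ w⟩ := by
      have h1 := modByMonic_add_div u.re w
      have h2 := modByMonic_add_div u.im w
      ext1
      · simp only [QuadraticAlgebra.re_sub, QuadraticAlgebra.re_mul, QuadraticAlgebra.algebraMap_re,
          QuadraticAlgebra.algebraMap_im]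
        rw [sub_eq_iff_eq_add]
        nth_rewrite 1 [← h1]
        ring
      · simp only [QuadraticAlgebra.im_sub, QuadraticAlgebra.im_mul, QuadraticAlgebra.algebraMap_re,
          QuadraticAlgebra.algebraMap_im]
        rw [sub_eq_iff_eq_add]
        nth_rewrite 1 [← h2]
        ring
    rw [this]
    exact J.mul_mem_right _ hwI

theorem finite_V {g : ℕ} (hd : f.natDegree = 2 * g + 1)
    {I : Ideal (Q M (f.map (algebraMap V M)))} (hI : Good I) :
    Module.Finite V (Q V f ⧸ IV I) := by
  obtain ⟨w, hw, hwI⟩ := hI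
  let φ : Fm hd (2 * w.natDegree + 2 * g) →ₗ[V] (Q V f ⧸ IV I) :=
    ((Ideal.Quotient.mkₐ V (IV I)).toLinearMap).comp (Fm hd _).subtype
  apply Module.Finite.of_surjective φ
  intro x
  obtain ⟨u, rfl⟩ := Ideal.Quotient.mk_surjective x
  obtain ⟨v, hv, huv⟩ := exists_repV hd hw hwI u le_rfl
  refine ⟨⟨v, hv⟩, ?_⟩
  exact (Ideal.Quotient.eq.2 huv).symm

theorem colen_le_of_good {g : ℕ} (hf : f.Monic) (hd : f.natDegree = 2 * g + 1)
    {I : Ideal (Q M (f.map (algebraMap V M)))} (hI : I ≠ ⊥) (hG : Good I) :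
    colen I ≤ colen (Ib I) := by
  obtain ⟨ϖ, hϖ⟩ := IsDiscreteValuationRing.exists_irreducible V
  have hϖ0 : algebraMap V M ϖ ≠ 0 := by simpa using hϖ.ne_zero
  haveI := finite_V hd hG
  obtain ⟨e, -, he⟩ := exists_lift hf hd hI
  -- the e_i span the quotient over V
  have h1 : Submodule.span V (Set.range (fun i => Ideal.Quotient.mk (IV I) (e i))) = ⊤ := by
    rw [eq_top_iff]
    apply Submodule.le_of_le_smul_of_le_jacobson_bot (I := IsLocalRing.maximalIdeal V)
    · exact Module.Finite.fg_top
    · exact IsLocalRing.maximalIdeal_le_jacobson _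
    · rintro x -
      obtain ⟨u, rfl⟩ := Ideal.Quotient.mk_surjective x
      obtain ⟨a, v, w, hv, huv⟩ := exists_comb hϖ e he u
      have h2 : Ideal.Quotient.mk (IV I) u = (∑ i, a i • Ideal.Quotient.mk (IV I) (e i)) +
          ϖ • Ideal.Quotient.mk (IV I) w := by
        rw [huv, map_add, map_add, map_sum, Ideal.Quotient.eq_zero_iff_mem.2 hv, add_zero]
        rfl
      rw [h2]
      apply Submodule.add_mem_sup
      · apply Submodule.sum_mem
        intro i _
        exact Submodule.smul_mem _ _ (Submodule.subset_span ⟨i, rfl⟩)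
      · refine Submodule.smul_mem_smul ?_ (Submodule.mem_top)
        rw [hϖ.maximalIdeal_eq]
        exact Ideal.mem_span_singleton_self ϖ
  have h2 : Submodule.span M (Set.range (fun i => Ideal.Quotient.mk I (io M f (e i)))) = ⊤ := by
    rw [eq_top_iff]
    rintro x -
    obtain ⟨x, rfl⟩ := Ideal.Quotient.mk_surjective x
    obtain ⟨n, u, hu⟩ := clear hϖ x
    have h3 : Ideal.Quotient.mk (IV I) u ∈
      Submodule.span V (Set.range (fun i => Ideal.Quotient.mk (IV I) (e i))) := by
      rw [h1]; trivial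
    rw [Submodule.mem_span_range_iff_exists_fun] at h3
    obtain ⟨c, hc⟩ := h3
    have h4 : io M f u - ∑ i, algebraMap V M (c i) • io M f (e i) ∈ I := by
      have h5 : u - ∑ i, c i • e i ∈ IV I := by
        rw [← Ideal.Quotient.eq_zero_iff_mem, map_sub, ← hc, map_sum, sub_eq_zero]
        rfl
      rw [mem_IV, map_sub, map_sum] at h5
      simpa only [io_smul] using h5
    have h6 : Ideal.Quotient.mk I x =
        ((algebraMap V M ϖ) ^ n)⁻¹ • ∑ i, algebraMap V M (c i) • Ideal.Quotient.mk I (io M f (e i)) := by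
      have h7 : x = ((algebraMap V M ϖ) ^ n)⁻¹ • io M f u := by
        rw [← hu, smul_smul, inv_mul_cancel₀ (pow_ne_zero _ hϖ0), one_smul]
      have h8 : Ideal.Quotient.mk I (io M f u) =
          ∑ i, algebraMap V M (c i) • Ideal.Quotient.mk I (io M f (e i)) := by
        rw [← sub_eq_zero]
        have h9 := Ideal.Quotient.eq_zero_iff_mem.2 h4
        rw [map_sub, map_sum] at h9
        exact h9
      rw [h7, ← h8]
      rfl
    rw [h6]
    apply Submodule.smul_mem
    apply Submodule.sum_mem
    intro i _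
    exact Submodule.smul_mem _ _ (Submodule.subset_span ⟨i, rfl⟩)
  have h3 := finrank_range_le_card (R := M) (fun i => Ideal.Quotient.mk I (io M f (e i)))
  rw [Fintype.card_fin, Set.finrank, h2, finrank_top] at h3
  exact h3

theorem colen_eq_of_good {g : ℕ} (hf : f.Monic) (hd : f.natDegree = 2 * g + 1)
    {I : Ideal (Q M (f.map (algebraMap V M)))} (hI : I ≠ ⊥) (hG : Good I) :
    colen (Ib I) = colen I :=
  le_antisymm (colen_Ib_le hf hd hI) (colen_le_of_good hf hd hI hG)

end lat3

end H58Q
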