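import Pool.Agent.Helper58_UB.Lat3

/-!
Good ideals: converse criterion, multiplicativity of the reduction.
-/

set_option linter.style.haveILetI false
set_option linter.unusedVariables false
set_option linter.unusedSectionVars false

open Polynomial

namespace H58Q

section lat4

variable {V : Type*} [CommRing V] [IsDomain V] [IsDiscreteValuationRing V]
variable {M : Type*} [Field M] [Algebra V M] [IsFractionRing V M]
variable {f : V[X]}

theorem good_of_colen {g : ℕ} (hf : f.Monic) (hd : f.natDegree = 2 * g + 1)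
    {I : Ideal (Q M (f.map (algebraMap V M)))} (hI : I ≠ ⊥) (h : colen I ≤ colen (Ib I)) :
    Good I := by
  haveI := finite_quot (natDegree_M (M := M) hd) hI
  obtain ⟨e, he, -⟩ := exists_lift hf hd hI
  have hind := indep e he
  have hcard : Fintype.card (Fin (colen (Ib I))) =
      Module.finrank M (Q M (f.map (algebraMap V M)) ⧸ I) := by
    rw [Fintype.card_fin]
    exact le_antisymm (colen_Ib_le hf hd hI) h
  have hspan := hind.span_eq_top_of_card_eq_finrank' hcard
  -- every integral element is an integral combination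
  have key : ∀ u : Q V f, ∃ a : Fin (colen (Ib I)) → V, u - ∑ i, a i • e i ∈ IV I := by
    intro u
    have h1 : Ideal.Quotient.mk I (io M f u) ∈
        Submodule.span M (Set.range (fun i => Ideal.Quotient.mk I (io M f (e i)))) := by
      rw [hspan]; exact Submodule.mem_top
    rw [Submodule.mem_span_range_iff_exists_fun] at h1
    obtain ⟨c, hc⟩ := h1
    by_cases hc0 : c = 0
    · refine ⟨0, ?_⟩
      have : Ideal.Quotient.mk I (io M f u) = 0 := by
        rw [← hc, hc0]; simp
      rw [Ideal.Quotient.eq_zero_iff_mem] at this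
      simpa [mem_IV] using this
    · obtain ⟨i0, c', hi0, hi1, hcc⟩ := scale (V := V) hc0
      by_cases h2 : ∃ s : V, algebraMap V M s = c i0
      · obtain ⟨s, hs⟩ := h2
        refine ⟨fun i => s * c' i, ?_⟩
        rw [mem_IV, map_sub, map_sum, ← Ideal.Quotient.eq_zero_iff_mem, map_sub, ← hc, map_sum,
          sub_eq_zero]
        apply Finset.sum_congr rfl
        intro i _
        rw [io_smul, hcc i, map_mul, hs]
        rfl
      · exfalso
        obtain ⟨s, hs⟩ := (ValuationRing.isInteger_or_isInteger V (c i0)).resolve_left h2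
        by_cases hsu : IsUnit s
        · apply h2
          obtain ⟨s', rfl⟩ := hsu
          refine ⟨((s'⁻¹ : Vˣ) : V), ?_⟩
          have h3 : algebraMap V M ((s'⁻¹ : Vˣ) : V) * algebraMap V M (s' : V) = 1 := by
            rw [← map_mul, Units.inv_mul, map_one]
          rw [hs] at h3
          exact (mul_inv_eq_one₀ hi0).1 h3
        · have hs0 : IsLocalRing.residue V s = 0 := by
            rw [IsLocalRing.residue_eq_zero_iff, IsLocalRing.mem_maximalIdeal]
            exact hsu
          have h3 : s • u - ∑ i, c' i • e i ∈ IV I := by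
            rw [mem_IV, map_sub, map_sum, ← Ideal.Quotient.eq_zero_iff_mem, map_sub, io_smul, hs,
              map_sum]
            have h4 : Ideal.Quotient.mk I ((c i0)⁻¹ • io M f u) =
                (c i0)⁻¹ • Ideal.Quotient.mk I (io M f u) := rfl
            rw [h4, ← hc, Finset.smul_sum, sub_eq_zero]
            apply Finset.sum_congr rfl
            intro i _
            rw [io_smul, hcc i, smul_smul, ← mul_assoc, inv_mul_cancel₀ hi0, one_mul]
            rfl
          have h5 : red f (s • u - ∑ i, c' i • e i) ∈ Ib I := mem_Ib.2 ⟨_, h3, rfl⟩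
          rw [← Ideal.Quotient.eq_zero_iff_mem, map_sub, map_sub, red_smul, hs0, zero_smul,
            map_zero, zero_sub, neg_eq_zero, map_sum, map_sum] at h5
          have h6 : ∑ i, IsLocalRing.residue V (c' i) •
              Ideal.Quotient.mk (Ib I) (red f (e i)) = 0 := by
            rw [← h5]
            apply Finset.sum_congr rfl
            intro i _
            rw [red_smul]
            rfl
          have h7 := Fintype.linearIndependent_iff.1 he _ h6 i0
          rw [hi1, map_one] at h7
          exact one_ne_zero h7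
  -- hence the quotient is finite over V
  have hfin : Module.Finite V (Q V f ⧸ IV I) := by
    classical
    rw [Module.finite_def]
    refine ⟨Finset.univ.image (fun i => Ideal.Quotient.mk (IV I) (e i)), ?_⟩
    rw [eq_top_iff]
    rintro x -
    obtain ⟨u, rfl⟩ := Ideal.Quotient.mk_surjective x
    obtain ⟨a, ha⟩ := key u
    have h1 : Ideal.Quotient.mk (IV I) u = ∑ i, a i • Ideal.Quotient.mk (IV I) (e i) := by
      rw [← sub_eq_zero]
      have := Ideal.Quotient.eq_zero_iff_mem.2 ha
      rw [map_sub, map_sum] at this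
      exact this
    rw [h1]
    apply Submodule.sum_mem
    intro i _
    apply Submodule.smul_mem
    apply Submodule.subset_span
    simp
  have hint : IsIntegral V (Ideal.Quotient.mk (IV I) (algebraMap V[X] (Q V f) X)) :=
    Algebra.IsIntegral.isIntegral _
  obtain ⟨w, hw, hw0⟩ := hint
  refine ⟨w, hw, ?_⟩
  rw [← Ideal.Quotient.eq_zero_iff_mem, ← hw0]
  have h1 : (Ideal.Quotient.mk (IV I)) ((algebraMap V[X] (Q V f)) w) =
      aeval ((Ideal.Quotient.mkₐ V (IV I)) ((Algebra.ofId V[X] (Q V f)).restrictScalars V X)) w := by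
    rw [aeval_algHom_apply, aeval_algHom_apply, aeval_X_left_apply]
    rfl
  rw [h1]
  rfl

theorem Good.mul {I J : Ideal (Q M (f.map (algebraMap V M)))} (hI : Good I) (hJ : Good J) :
    Good (I * J) := by
  obtain ⟨w, hw, hwI⟩ := hI
  obtain ⟨v, hv, hvJ⟩ := hJ
  refine ⟨w * v, hw.mul hv, ?_⟩
  rw [mem_IV, map_mul, map_mul]
  exact Ideal.mul_mem_mul hwI hvJ

theorem good_top : Good (⊤ : Ideal (Q M (f.map (algebraMap V M)))) :=
  ⟨1, monic_one, by rw [mem_IV]; exact Submodule.mem_top⟩

theorem Good.pow {I : Ideal (Q M (f.map (algebraMap V M)))} (hI : Good I) (n : ℕ) :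
    Good (I ^ n) := by
  induction n with
  | zero => rw [pow_zero, Ideal.one_eq_top]; exact good_top
  | succ n ih => rw [pow_succ]; exact ih.mul hI

theorem Ib_mul_le (I J : Ideal (Q M (f.map (algebraMap V M)))) :
    Ib I * Ib J ≤ Ib (I * J) := by
  rw [Ideal.mul_le]
  intro x hx y hy
  obtain ⟨u, hu, rfl⟩ := mem_Ib.1 hx
  obtain ⟨v, hv, rfl⟩ := mem_Ib.1 hy
  rw [← map_mul]
  refine mem_Ib.2 ⟨u * v, ?_, rfl⟩
  rw [map_mul]
  exact Ideal.mul_mem_mul hu hv

theorem Ib_mul {g : ℕ} (hf : f.Monic) (hd : f.natDegree = 2 * g + 1)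
    [IsDedekindDomain (Q M (f.map (algebraMap V M)))]
    [IsDedekindDomain (Q (IsLocalRing.ResidueField V) (f.map (IsLocalRing.residue V)))]
    {I J : Ideal (Q M (f.map (algebraMap V M)))} (hI : I ≠ ⊥) (hJ : J ≠ ⊥)
    (gI : Good I) (gJ : Good J) : Ib (I * J) = Ib I * Ib J := by
  symm
  apply eq_of_colen (natDegree_k hf hd)
  · exact mul_ne_zero (Ib_ne_bot hI) (Ib_ne_bot hJ)
  · exact Ib_mul_le I J
  · rw [colen_mul (natDegree_k hf hd) (Ib_ne_bot hI) (Ib_ne_bot hJ),
      colen_eq_of_good hf hd hI gI, colen_eq_of_good hf hd hJ gJ,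
      colen_eq_of_good hf hd (mul_ne_zero hI hJ) (gI.mul gJ), colen_mul (natDegree_M hd) hI hJ]

theorem Ib_pow {g : ℕ} (hf : f.Monic) (hd : f.natDegree = 2 * g + 1)
    [IsDedekindDomain (Q M (f.map (algebraMap V M)))]
    [IsDedekindDomain (Q (IsLocalRing.ResidueField V) (f.map (IsLocalRing.residue V)))]
    {I : Ideal (Q M (f.map (algebraMap V M)))} (hI : I ≠ ⊥)
    (gI : Good I) (n : ℕ) : Ib (I ^ n) = Ib I ^ n := by
  induction n with
  | zero =>
    rw [pow_zero, pow_zero, Ideal.one_eq_top, Ideal.one_eq_top, Ideal.eq_top_iff_one]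
    exact mem_Ib.2 ⟨1, Submodule.mem_top, map_one _⟩
  | succ n ih =>
    rw [pow_succ, pow_succ, Ib_mul hf hd (pow_ne_zero n hI) hI (gI.pow n) gI, ih]

theorem Ib_span_mul {g : ℕ} (hf : f.Monic) (hd : f.natDegree = 2 * g + 1)
    {a : Q V f} (ha : red f a ≠ 0) (I : Ideal (Q M (f.map (algebraMap V M)))) :
    Ib (Ideal.span {io M f a} * I) = Ideal.span {red f a} * Ib I := by
  ext y
  rw [Ideal.mem_span_singleton_mul, mem_Ib]
  constructor
  · rintro ⟨u, hu, rfl⟩
    obtain ⟨z, hz, hzu⟩ := Ideal.mem_span_singleton_mul.1 hu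
    obtain ⟨v, rfl, rfl⟩ := prim_dvd hf hd ha hzu
    exact ⟨red f v, mem_Ib.2 ⟨v, hz, rfl⟩, by rw [map_mul]⟩
  · rintro ⟨z, hz, rfl⟩
    obtain ⟨v, hv, rfl⟩ := mem_Ib.1 hz
    refine ⟨a * v, ?_, by rw [map_mul]⟩
    rw [map_mul]
    exact Ideal.mul_mem_mul (Ideal.mem_span_singleton_self _) hv

theorem Ib_span {g : ℕ} (hf : f.Monic) (hd : f.natDegree = 2 * g + 1)
    {a : Q V f} (ha : red f a ≠ 0) :
    Ib (Ideal.span {io M f a}) = Ideal.span {red f a} := by
  have h := Ib_span_mul (M := M) hf hd ha ⊤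
  rw [Ideal.mul_top] at h
  rw [h]
  have : Ib (⊤ : Ideal (Q M (f.map (algebraMap V M)))) = ⊤ := by
    rw [Ideal.eq_top_iff_one]
    exact mem_Ib.2 ⟨1, Submodule.mem_top, map_one _⟩
  rw [this, Ideal.mul_top]

end lat4

end H58Q
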